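import Pool.Agent.Lib.MP_943dad_ag.AG.Euclid

/-!
# The affine group over a field and tuples of translations
-/

open scoped commutatorElement

namespace Pool.Agent.PrymAff

/-- The group `F ⋊ C` of the maps `t ↦ a t + b` with `b` in a field `F` and `a` in a subgroup `C` of
its units. -/
@[ext]
structure Aff (F : Type) [Field F] (C : Subgroup Fˣ) where
  b : F
  a : C

namespace Aff

variable {F : Type} [Field F] {C : Subgroup Fˣ}

instance : Mul (Aff F C) := ⟨fun u v => ⟨u.b + ((u.a : Fˣ) : F) * v.b, u.a * v.a⟩⟩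

instance : _root_.One (Aff F C) := ⟨⟨0, 1⟩⟩

instance : Inv (Aff F C) := ⟨fun u => ⟨-(((u.a⁻¹ : C) : Fˣ) : F) * u.b, u.a⁻¹⟩⟩

theorem mul_def (u v : Aff F C) : u * v = ⟨u.b + ((u.a : Fˣ) : F) * v.b, u.a * v.a⟩ := rfl

theorem one_def : (1 : Aff F C) = ⟨0, 1⟩ := rfl

theorem inv_def (u : Aff F C) : u⁻¹ = ⟨-(((u.a⁻¹ : C) : Fˣ) : F) * u.b, u.a⁻¹⟩ := rfl

theorem mul_assoc' (u v w : Aff F C) : u * v * w = u * (v * w) := by
  rw [mul_def, mul_def, mul_def, mul_def]
  refine Aff.ext ?_ (mul_assoc _ _ _)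
  show u.b + ((u.a : Fˣ) : F) * v.b + (((u.a * v.a : C) : Fˣ) : F) * w.b =
    u.b + ((u.a : Fˣ) : F) * (v.b + ((v.a : Fˣ) : F) * w.b)
  push_cast
  ring

theorem one_mul' (u : Aff F C) : 1 * u = u := by
  rw [mul_def, one_def]
  refine Aff.ext ?_ (one_mul _)
  show 0 + (((1 : C) : Fˣ) : F) * u.b = u.b
  push_cast
  ring

theorem inv_mul' (u : Aff F C) : u⁻¹ * u = 1 := by
  rw [mul_def, inv_def, one_def]
  refine Aff.ext ?_ (inv_mul_cancel _)
  show -(((u.a⁻¹ : C) : Fˣ) : F) * u.b + (((u.a⁻¹ : C) : Fˣ) : F) * u.b = 0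
  ring

instance : Group (Aff F C) := Group.ofLeftAxioms mul_assoc' one_mul' inv_mul'

/-- the linear part -/
def lin : Aff F C →* C where
  toFun := fun u => u.a
  map_one' := rfl
  map_mul' := fun _ _ => rfl

/-- translations -/
def tr (s : F) : Aff F C := ⟨s, 1⟩

theorem tr_mul (s t : F) : (tr s : Aff F C) * tr t = tr (s + t) := by
  unfold tr
  rw [mul_def]
  refine Aff.ext ?_ (one_mul _)
  show s + (((1 : C) : Fˣ) : F) * t = s + t
  push_cast
  ring

theorem tr_zero : (tr 0 : Aff F C) = 1 := rfl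

theorem tr_inv (s : F) : (tr s : Aff F C)⁻¹ = tr (-s) := by
  rw [inv_eq_iff_mul_eq_one, tr_mul, add_neg_cancel, tr_zero]

theorem tr_commute (s t : F) : Commute (tr s : Aff F C) (tr t) := by
  show tr s * tr t = tr t * tr s
  rw [tr_mul, tr_mul, add_comm]

theorem eq_tr {u : Aff F C} (h : lin u = 1) : u = tr u.b := Aff.ext rfl h

theorem conj_tr (c : C) (s : F) : (⟨0, c⟩ : Aff F C) * tr s * (⟨0, c⟩ : Aff F C)⁻¹ = tr (((c : Fˣ) : F) * s) := by
  rw [mul_inv_eq_iff_eq_mul]
  unfold tr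
  rw [mul_def, mul_def]
  refine Aff.ext ?_ ?_
  · show 0 + ((c : Fˣ) : F) * s = ((c : Fˣ) : F) * s + (((1 : C) : Fˣ) : F) * 0
    ring
  · show c * 1 = 1 * c
    rw [one_mul, mul_one]

end Aff

open Aff

variable {n : ℕ} {F : Type} [Field F] {C : Subgroup Fˣ}

/-- the tuple with `(c, 1)` on the handle `0` and translations on the other ones -/
def TT (c : C) (w : Fin (n + 2) → F × F) : Tup (n + 2) (Aff F C) :=
  fun i => if i = 0 then (⟨0, c⟩, 1) else (tr (w i).1, tr (w i).2)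

theorem TT_zero (c : C) (w : Fin (n + 2) → F × F) : TT c w 0 = (⟨0, c⟩, 1) := by
  unfold TT
  rw [if_pos rfl]

theorem TT_ne (c : C) (w : Fin (n + 2) → F × F) {i : Fin (n + 2)} (hi : i ≠ 0) :
    TT c w i = (tr (w i).1, tr (w i).2) := by
  unfold TT
  rw [if_neg hi]

theorem flat_TT (c : C) (w : Fin (n + 2) → F × F) : Flat (TT c w) := by
  intro i
  by_cases hi : i = 0
  · subst hi
    rw [TT_zero]
    exact commutatorElement_one_right _
  · rw [TT_ne c w hi, commutatorElement_eq_one_iff_commute]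
    exact tr_commute _ _

theorem TT_update (c : C) (w : Fin (n + 2) → F × F) {i : Fin (n + 2)} (hi : i ≠ 0) (v : F × F) :
    TT c (Function.update w i v) = Function.update (TT c w) i (tr v.1, tr v.2) := by
  funext k
  by_cases hk : k = i
  · subst hk
    rw [TT_ne c _ hi, Function.update_self, Function.update_self]
  · rw [Function.update_of_ne hk]
    unfold TT
    rw [Function.update_of_ne hk]

/-- equivalence of the tuples of translations -/
def Rt (c : C) (w w' : Fin (n + 2) → F × F) : Prop := TEqv (TT c w) (TT c w')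

theorem Rt.trans {c : C} {w w' w'' : Fin (n + 2) → F × F} (h : Rt c w w') (h' : Rt c w' w'') :
    Rt c w w'' := TEqv.trans h h'

theorem Rt.symm {c : C} {w w' : Fin (n + 2) → F × F} (h : Rt c w w') : Rt c w' w := TEqv.symm h

theorem Rt.refl (c : C) (w : Fin (n + 2) → F × F) : Rt c w w := TEqv.refl (flat_TT c w).com_eq

theorem rt_rot (c : C) (w : Fin (n + 2) → F × F) {i : Fin (n + 2)} (hi : i ≠ 0) :
    Rt c w (Function.update w i ((w i).2, -(w i).1)) := by
  unfold Rt
  rw [TT_update c w hi]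
  have h := teqv_one RR (flat_TT c w).com_eq i
  convert h using 2
  rw [TT_ne c w hi]
  show _ = ((tr (w i).1) * (tr (w i).2) * (tr (w i).1)⁻¹, (tr (w i).1)⁻¹)
  rw [(tr_commute (w i).1 (w i).2).eq, mul_inv_cancel_right, tr_inv]

theorem rt_add (c : C) (w : Fin (n + 2) → F × F) {i j : Fin (n + 2)} (hi : i ≠ 0) (hj : j ≠ 0)
    (hij : i ≠ j) :
    Rt c w (Function.update (Function.update w i ((w i).1 + (w j).2, (w i).2)) j
      ((w j).1 + (w i).2, (w j).2)) := by
  unfold Rt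
  rw [TT_update c _ hj, TT_update c _ hi]
  have h := teqv_add (flat_TT c w) hij
  rw [TT_ne c w hi, TT_ne c w hj] at h
  have h' := h (tr_commute _ _) (tr_commute _ _) (tr_commute _ _) (tr_commute _ _) (tr_commute _ _)
    (tr_commute _ _)
  simp only [tr_mul] at h'
  exact h'

/-- scaling of a handle by `c` -/
theorem rt_push (c : C) (w : Fin (n + 2) → F × F) {j : Fin (n + 2)} (hj : j ≠ 0) :
    Rt c w (Function.update w j (((c : Fˣ) : F) * (w j).1, ((c : Fˣ) : F) * (w j).2)) := by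
  unfold Rt
  rw [TT_update c _ hj]
  have e1 : ⁅(tr (w j).1 : Aff F C), (tr (w j).2 : Aff F C)⁆ = 1 := by
    rw [commutatorElement_eq_one_iff_commute]
    exact tr_commute _ _
  have k : PP.k ((⟨0, c⟩ : Aff F C), (1 : Aff F C)) (tr (w j).1, tr (w j).2) =
      (((⟨0, c⟩ : Aff F C), (1 : Aff F C)), (tr (((c : Fˣ) : F) * (w j).1), tr (((c : Fˣ) : F) * (w j).2))) := by
    show (((⟨0, c⟩ : Aff F C), ⁅(tr (w j).1 : Aff F C), (tr (w j).2 : Aff F C)⁆⁻¹ * (1 : Aff F C)),
      ((⁅(tr (w j).1 : Aff F C), (tr (w j).2 : Aff F C)⁆⁻¹ * 1 * (⟨0, c⟩ : Aff F C) * 1⁻¹) * tr (w j).1 *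
        (⁅(tr (w j).1 : Aff F C), (tr (w j).2 : Aff F C)⁆⁻¹ * 1 * (⟨0, c⟩ : Aff F C) * 1⁻¹)⁻¹,
      (⁅(tr (w j).1 : Aff F C), (tr (w j).2 : Aff F C)⁆⁻¹ * 1 * (⟨0, c⟩ : Aff F C) * 1⁻¹) * tr (w j).2 *
        (⁅(tr (w j).1 : Aff F C), (tr (w j).2 : Aff F C)⁆⁻¹ * 1 * (⟨0, c⟩ : Aff F C) * 1⁻¹)⁻¹)) = _
    rw [e1]
    simp only [inv_one, one_mul, mul_one]
    rw [conj_tr, conj_tr]
  have h := teqv_two PP (flat_TT c w) (i := 0) (j := j) hj.symm
  rw [TT_zero, TT_ne c w hj, k] at h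
  have h' := h (by
    show ⁅(⟨0, c⟩ : Aff F C), (1 : Aff F C)⁆ = 1
    exact commutatorElement_one_right _) (by
    show ⁅(tr (((c : Fˣ) : F) * (w j).1) : Aff F C), (tr (((c : Fˣ) : F) * (w j).2) : Aff F C)⁆ = 1
    rw [commutatorElement_eq_one_iff_commute]
    exact tr_commute _ _)
  convert h' using 2
  rw [← TT_zero c w, Function.update_eq_self]

/-- the operation `x_i ↦ x_i + λ y_j`, `x_j ↦ x_j + μ y_i` -/
def opv (i j : Fin (n + 2)) (p : F × F) (w : Fin (n + 2) → F × F) : Fin (n + 2) → F × F :=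
  Function.update (Function.update w i ((w i).1 + p.1 * (w j).2, (w i).2)) j
    ((w j).1 + p.2 * (w i).2, (w j).2)

theorem opv_i {i j : Fin (n + 2)} (hij : i ≠ j) (p : F × F) (w : Fin (n + 2) → F × F) :
    opv i j p w i = ((w i).1 + p.1 * (w j).2, (w i).2) := by
  unfold opv
  rw [Function.update_of_ne hij, Function.update_self]

theorem opv_j {i j : Fin (n + 2)} (p : F × F) (w : Fin (n + 2) → F × F) :
    opv i j p w j = ((w j).1 + p.2 * (w i).2, (w j).2) := by
  unfold opv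
  rw [Function.update_self]

theorem opv_k {i j k : Fin (n + 2)} (hi : k ≠ i) (hj : k ≠ j) (p : F × F) (w : Fin (n + 2) → F × F) :
    opv i j p w k = w k := by
  unfold opv
  rw [Function.update_of_ne hj, Function.update_of_ne hi]

omit [Field F] in
theorem fun_eq {i j : Fin (n + 2)} {u v : Fin (n + 2) → F × F} (h1 : u i = v i) (h2 : u j = v j)
    (h3 : ∀ k, k ≠ i → k ≠ j → u k = v k) : u = v := by
  funext k
  by_cases hi : k = i
  · rw [hi, h1]
  · by_cases hj : k = j
    · rw [hj, h2]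
    · exact h3 k hi hj

theorem opv_add {i j : Fin (n + 2)} (hij : i ≠ j) (p q : F × F) (w : Fin (n + 2) → F × F) :
    opv i j q (opv i j p w) = opv i j (p + q) w := by
  apply fun_eq (i := i) (j := j)
  · rw [opv_i hij, opv_i hij, opv_i hij, opv_j]
    refine Prod.ext ?_ rfl
    show (w i).1 + p.1 * (w j).2 + q.1 * (w j).2 = (w i).1 + (p.1 + q.1) * (w j).2
    ring
  · rw [opv_j, opv_j, opv_i hij, opv_j]
    refine Prod.ext ?_ rfl
    show (w j).1 + p.2 * (w i).2 + q.2 * (w i).2 = (w j).1 + (p.2 + q.2) * (w i).2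
    ring
  · intro k hi hj
    rw [opv_k hi hj, opv_k hi hj, opv_k hi hj]

theorem opv_zero {i j : Fin (n + 2)} (hij : i ≠ j) (w : Fin (n + 2) → F × F) :
    opv i j 0 w = w := by
  apply fun_eq (i := i) (j := j)
  · rw [opv_i hij]
    refine Prod.ext ?_ rfl
    show (w i).1 + 0 * (w j).2 = (w i).1
    ring
  · rw [opv_j]
    refine Prod.ext ?_ rfl
    show (w j).1 + 0 * (w i).2 = (w j).1
    ring
  · intro k hi hj
    rw [opv_k hi hj]

/-- the additive group of the operations which can be realised -/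
def DD (c : C) {i j : Fin (n + 2)} (hij : i ≠ j) : AddSubgroup (F × F) where
  carrier := {p | ∀ w : Fin (n + 2) → F × F, Rt c w (opv i j p w)}
  zero_mem' := fun w => by
    rw [opv_zero hij]
    exact Rt.refl c w
  add_mem' := fun {p q} hp hq w => by
    rw [← opv_add hij]
    exact (hp w).trans (hq _)
  neg_mem' := fun {p} hp w => by
    have h := hp (opv i j (-p) w)
    rw [opv_add hij, neg_add_cancel, opv_zero hij] at h
    exact h.symm

theorem one_mem_DD (c : C) {i j : Fin (n + 2)} (hi : i ≠ 0) (hj : j ≠ 0) (hij : i ≠ j) :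
    ((1, 1) : F × F) ∈ DD c hij := by
  intro w
  have h := rt_add c w hi hj hij
  unfold opv
  simp only [one_mul]
  exact h

/-- scaling of the handle `j` -/
def scl (j : Fin (n + 2)) (t : F) (w : Fin (n + 2) → F × F) : Fin (n + 2) → F × F :=
  Function.update w j (t * (w j).1, t * (w j).2)

theorem scl_j (j : Fin (n + 2)) (t : F) (w : Fin (n + 2) → F × F) :
    scl j t w j = (t * (w j).1, t * (w j).2) := by
  unfold scl
  rw [Function.update_self]

theorem scl_k {j k : Fin (n + 2)} (h : k ≠ j) (t : F) (w : Fin (n + 2) → F × F) :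
    scl j t w k = w k := by
  unfold scl
  rw [Function.update_of_ne h]

theorem scl_opv {i j : Fin (n + 2)} (hij : i ≠ j) (t : F) (ht : t ≠ 0) (p : F × F)
    (w : Fin (n + 2) → F × F) :
    opv i j p (scl j t w) = scl j t (opv i j (t * p.1, t⁻¹ * p.2) w) := by
  apply fun_eq (i := i) (j := j)
  · rw [opv_i hij, scl_k hij, scl_k hij, scl_j, opv_i hij]
    refine Prod.ext ?_ rfl
    show (w i).1 + p.1 * (t * (w j).2) = (w i).1 + t * p.1 * (w j).2
    ring
  · rw [opv_j, scl_j, scl_k hij, scl_j, opv_j]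
    refine Prod.ext ?_ rfl
    show t * (w j).1 + p.2 * (w i).2 = t * ((w j).1 + t⁻¹ * p.2 * (w i).2)
    field_simp
  · intro k hi hj
    rw [opv_k hi hj, scl_k hj, scl_k hj, opv_k hi hj]

theorem rt_scl (c : C) {j : Fin (n + 2)} (hj : j ≠ 0) (w : Fin (n + 2) → F × F) :
    Rt c w (scl j ((c : Fˣ) : F) w) := rt_push c w hj

theorem mul_mem_DD (c : C) {i j : Fin (n + 2)} (hj : j ≠ 0) (hij : i ≠ j)
    {p : F × F} (hp : p ∈ DD c hij) :
    ((((c : Fˣ) : F), ((c : Fˣ) : F)⁻¹) : F × F) * p ∈ DD c hij := by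
  intro w
  have h1 := rt_scl c hj w
  have h2 := hp (scl j ((c : Fˣ) : F) w)
  rw [scl_opv hij _ (Units.ne_zero _)] at h2
  exact h1.trans (h2.trans (rt_scl c hj _).symm)

/-- the multipliers of an additive subgroup of a ring -/
def mult {R : Type} [Ring R] (D : AddSubgroup R) : Subring R where
  carrier := {p | ∀ d ∈ D, p * d ∈ D}
  one_mem' := fun d hd => by rwa [one_mul]
  mul_mem' := fun {a b} ha hb d hd => by
    rw [mul_assoc]
    exact ha _ (hb _ hd)
  zero_mem' := fun d _ => by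
    rw [zero_mul]
    exact D.zero_mem
  add_mem' := fun {a b} ha hb d hd => by
    rw [add_mul]
    exact D.add_mem (ha _ hd) (hb _ hd)
  neg_mem' := fun {a} ha d hd => by
    rw [neg_mul]
    exact D.neg_mem (ha _ hd)

/-- A subring of `F × F` with both projections onto which is not a graph is everything. -/
theorem goursat (S : Subring (F × F)) (h1 : ∀ x : F, ∃ y, (x, y) ∈ S) (h2 : ∀ y : F, ∃ x, (x, y) ∈ S)
    (P : F → F → Prop) (hP : ∀ x y, P x y → (x, y) ∈ S)
    (hno : ¬ ∃ σ : F →+* F, ∀ x y, P x y → σ x = y) : S = ⊤ := by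
  by_cases hA : ∃ y, y ≠ 0 ∧ ((0 : F), y) ∈ S
  · obtain ⟨y, hy, hyS⟩ := hA
    have h01 : ((0 : F), (1 : F)) ∈ S := by
      obtain ⟨x, hx⟩ := h2 y⁻¹
      have := S.mul_mem hx hyS
      rw [Prod.mk_mul_mk, mul_zero, inv_mul_cancel₀ hy] at this
      exact this
    have h10 : ((1 : F), (0 : F)) ∈ S := by
      have := S.sub_mem S.one_mem h01
      have e : (1 : F × F) - (0, 1) = (1, 0) := by
        refine Prod.ext ?_ ?_
        · show (1 : F) - 0 = 1
          ring
        · show (1 : F) - 1 = 0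
          ring
      rwa [e] at this
    rw [eq_top_iff]
    rintro ⟨x, y⟩ -
    obtain ⟨y', hy'⟩ := h1 x
    obtain ⟨x', hx'⟩ := h2 y
    have := S.add_mem (S.mul_mem hy' h10) (S.mul_mem hx' h01)
    rw [Prod.mk_mul_mk, Prod.mk_mul_mk, Prod.mk_add_mk] at this
    simpa using this
  · exfalso
    have huniq : ∀ x y y' : F, (x, y) ∈ S → (x, y') ∈ S → y = y' := by
      intro x y y' h h'
      by_contra hne
      apply hA
      refine ⟨y - y', sub_ne_zero.2 hne, ?_⟩
      have := S.sub_mem h h'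
      rwa [Prod.mk_sub_mk, sub_self] at this
    choose f hf using h1
    apply hno
    refine ⟨{ toFun := f
              map_one' := huniq 1 _ _ (hf 1) S.one_mem
              map_mul' := fun x y => huniq (x * y) _ _ (hf _) (S.mul_mem (hf x) (hf y))
              map_zero' := huniq 0 _ _ (hf 0) S.zero_mem
              map_add' := fun x y => huniq (x + y) _ _ (hf _) (S.add_mem (hf x) (hf y)) }, ?_⟩
    intro x y hxy
    exact huniq x _ _ (hf x) (hP x y hxy)

end Pool.Agent.PrymAff
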