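import Pool.Agent.Lib.MP_943dad_ag.AG.Perm

/-!
# Reduction of homomorphisms to the integers
-/

open scoped commutatorElement

namespace Pool.Agent.PrymAff

variable {n : ℕ}

/-- tuples of integers, multiplicatively -/
def tm {g : ℕ} (w : Fin g → ℤ × ℤ) : Tup g (Multiplicative ℤ) :=
  fun i => (Multiplicative.ofAdd (w i).1, Multiplicative.ofAdd (w i).2)

theorem flat_tm {g : ℕ} (w : Fin g → ℤ × ℤ) : Flat (tm w) := by
  intro i
  rw [commutatorElement_eq_one_iff_commute]
  exact Commute.all _ _

theorem tm_update {g : ℕ} (w : Fin g → ℤ × ℤ) (i : Fin g) (v : ℤ × ℤ) :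
    tm (Function.update w i v) =
      Function.update (tm w) i (Multiplicative.ofAdd v.1, Multiplicative.ofAdd v.2) := by
  funext k
  by_cases hk : k = i
  · subst hk
    unfold tm
    rw [Function.update_self, Function.update_self]
  · unfold tm
    rw [Function.update_of_ne hk, Function.update_of_ne hk]

/-- equivalence of integer tuples -/
def Rz {g : ℕ} (w w' : Fin g → ℤ × ℤ) : Prop := TEqv (tm w) (tm w')

theorem rz_tx {g : ℕ} (w : Fin g → ℤ × ℤ) (i : Fin g) (m : ℤ) :
    Rz w (Function.update w i ((w i).1 + m * (w i).2, (w i).2)) := by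
  unfold Rz
  rw [tm_update]
  have h := teqv_one (TX m) (flat_tm w).com_eq i
  convert h using 2
  show _ = ((Multiplicative.ofAdd (w i).1) * (Multiplicative.ofAdd (w i).2) ^ m, Multiplicative.ofAdd (w i).2)
  rw [← ofAdd_zsmul, ← ofAdd_add, smul_eq_mul]

theorem rz_rot {g : ℕ} (w : Fin g → ℤ × ℤ) (i : Fin g) :
    Rz w (Function.update w i ((w i).2, -(w i).1)) := by
  unfold Rz
  rw [tm_update]
  have h := teqv_one RR (flat_tm w).com_eq i
  convert h using 2
  show _ = ((Multiplicative.ofAdd (w i).1) * (Multiplicative.ofAdd (w i).2) *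
    (Multiplicative.ofAdd (w i).1)⁻¹, (Multiplicative.ofAdd (w i).1)⁻¹)
  rw [mul_inv_cancel_comm]
  rfl

theorem rz_add (w : Fin (n + 2) → ℤ × ℤ) {i j : Fin (n + 2)} (hij : i ≠ j) :
    Rz w (Function.update (Function.update w i ((w i).1 + (w j).2, (w i).2)) j
      ((w j).1 + (w i).2, (w j).2)) := by
  unfold Rz
  rw [tm_update, tm_update]
  exact teqv_add (flat_tm w) hij (Commute.all _ _) (Commute.all _ _) (Commute.all _ _)
    (Commute.all _ _) (Commute.all _ _) (Commute.all _ _)

theorem rz_perm (w : Fin (n + 2) → ℤ × ℤ) (σ : Equiv.Perm (Fin (n + 2))) : Rz w (w ∘ σ) :=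
  teqv_perm (flat_tm w) σ

theorem Rz.trans {g : ℕ} {w w' w'' : Fin g → ℤ × ℤ} (h : Rz w w') (h' : Rz w' w'') : Rz w w'' :=
  TEqv.trans h h'

theorem Rz.symm {g : ℕ} {w w' : Fin g → ℤ × ℤ} (h : Rz w w') : Rz w' w := TEqv.symm h

theorem Rz.refl {g : ℕ} (w : Fin g → ℤ × ℤ) : Rz w w := TEqv.refl (flat_tm w).com_eq

/-- size of a handle -/
def sz (v : ℤ × ℤ) : ℕ := v.1.natAbs + v.2.natAbs

/-- size of a tuple -/
def mu {g : ℕ} (w : Fin g → ℤ × ℤ) : ℕ := ∑ i, sz (w i)

theorem mu_update {g : ℕ} (w : Fin g → ℤ × ℤ) (i : Fin g) (v : ℤ × ℤ) :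
    mu (Function.update w i v) + sz (w i) = mu w + sz v := by
  unfold mu
  rw [← Finset.add_sum_erase _ _ (Finset.mem_univ i), ← Finset.add_sum_erase _ (fun i => sz (w i)) (Finset.mem_univ i)]
  rw [Function.update_self]
  have : ∑ x ∈ Finset.univ.erase i, sz (Function.update w i v x) = ∑ x ∈ Finset.univ.erase i, sz (w x) := by
    refine Finset.sum_congr rfl fun x hx => ?_
    rw [Function.update_of_ne (Finset.ne_of_mem_erase hx)]
  rw [this]
  ring

theorem step_int {x y : ℤ} (hx : x ≠ 0) (hy : y ≠ 0) (h : y.natAbs ≤ x.natAbs) :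
    (x + 1 * y).natAbs < x.natAbs ∨ (x + (-1) * y).natAbs < x.natAbs := by
  omega

theorem red_one {g : ℕ} (w : Fin g → ℤ × ℤ) (i : Fin g) (hx : (w i).1 ≠ 0) (hy : (w i).2 ≠ 0)
    (h : (w i).2.natAbs ≤ (w i).1.natAbs) : ∃ w', Rz w w' ∧ mu w' < mu w := by
  rcases step_int hx hy h with h1 | h1
  · refine ⟨_, rz_tx w i 1, ?_⟩
    have h2 := mu_update w i ((w i).1 + 1 * (w i).2, (w i).2)
    simp only [sz] at h2
    omega
  · refine ⟨_, rz_tx w i (-1), ?_⟩
    have h2 := mu_update w i ((w i).1 + (-1) * (w i).2, (w i).2)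
    simp only [sz] at h2
    omega

theorem mu_rot {g : ℕ} (w : Fin g → ℤ × ℤ) (i : Fin g) :
    mu (Function.update w i ((w i).2, -(w i).1)) = mu w := by
  have h2 := mu_update w i ((w i).2, -(w i).1)
  simp only [sz, Int.natAbs_neg] at h2
  omega

theorem red_both {g : ℕ} (w : Fin g → ℤ × ℤ) (i : Fin g) (hx : (w i).1 ≠ 0) (hy : (w i).2 ≠ 0) :
    ∃ w', Rz w w' ∧ mu w' < mu w := by
  rcases le_total (w i).2.natAbs (w i).1.natAbs with h | h
  · exact red_one w i hx hy h
  · set u := Function.update w i ((w i).2, -(w i).1) with hu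
    have hui : u i = ((w i).2, -(w i).1) := by rw [hu, Function.update_self]
    obtain ⟨w', h1, h2⟩ := red_one u i (by rw [hui]; exact hy) (by rw [hui]; simpa using hx)
      (by rw [hui]; simpa using h)
    refine ⟨w', (rz_rot w i).trans h1, ?_⟩
    rw [hu, mu_rot] at h2
    exact h2

/-- two handles `(p, 0)` and `(0, q)` -/
theorem red_two (w : Fin (n + 2) → ℤ × ℤ) {i j : Fin (n + 2)} (hij : i ≠ j) {p q : ℤ}
    (hi : w i = (p, 0)) (hj : w j = (0, q)) (hp : p ≠ 0) (hq : q ≠ 0) (h : q.natAbs ≤ p.natAbs) :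
    ∃ w', Rz w w' ∧ mu w' < mu w := by
  have key : ∀ (w : Fin (n + 2) → ℤ × ℤ) (p q : ℤ), w i = (p, 0) → w j = (0, q) →
      Rz w (Function.update w i (p + q, 0)) := by
    intro w p q hi hj
    have h := rz_add w hij
    rw [hi, hj] at h
    convert h using 1
    funext k
    by_cases hkj : k = j
    · subst hkj
      rw [Function.update_self, Function.update_of_ne hij.symm, hj]
      simp
    · rw [Function.update_of_ne hkj]
  rcases step_int hp hq h with h1 | h1
  · refine ⟨_, key w p q hi hj, ?_⟩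
    have h2 := mu_update w i (p + q, 0)
    rw [hi] at h2
    simp only [sz] at h2
    rw [one_mul] at h1
    omega
  · refine ⟨Function.update w i (p + (-1) * q, 0), ?_, ?_⟩
    · apply Rz.symm
      have h3 := key (Function.update w i (p + (-1) * q, 0)) (p + (-1) * q) q (by rw [Function.update_self])
        (by rw [Function.update_of_ne hij.symm, hj])
      rw [Function.update_idem] at h3
      have h4 : Function.update w i (p + (-1) * q + q, 0) = w := by
        have : (p + (-1) * q + q, (0 : ℤ)) = w i := by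
          rw [hi]
          congr 1
          ring
        rw [this, Function.update_eq_self]
      rw [h4] at h3
      exact h3
    · have h2 := mu_update w i (p + (-1) * q, 0)
      rw [hi] at h2
      simp only [sz] at h2
      omega

/-- rotate a handle with one zero coordinate so that the second one is zero -/
theorem norm_x {g : ℕ} (w : Fin g → ℤ × ℤ) (i : Fin g) (h : (w i).1 = 0 ∨ (w i).2 = 0) :
    ∃ p : ℤ, Rz w (Function.update w i (p, 0)) ∧ p.natAbs = sz (w i) := by
  rcases h with h | h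
  · refine ⟨(w i).2, ?_, ?_⟩
    · have := rz_rot w i
      rw [h, neg_zero] at this
      exact this
    · unfold sz
      rw [h]
      simp
  · refine ⟨(w i).1, ?_, ?_⟩
    · have : ((w i).1, (0 : ℤ)) = w i := by rw [← h]
      rw [this, Function.update_eq_self]
      exact Rz.refl w
    · unfold sz
      rw [h]
      simp

theorem norm_y {g : ℕ} (w : Fin g → ℤ × ℤ) (i : Fin g) (h : (w i).1 = 0 ∨ (w i).2 = 0) :
    ∃ q : ℤ, Rz w (Function.update w i (0, q)) ∧ q.natAbs = sz (w i) := by
  obtain ⟨p, h1, h2⟩ := norm_x w i h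
  refine ⟨-p, ?_, by rw [Int.natAbs_neg, h2]⟩
  have h3 := rz_rot (Function.update w i (p, 0)) i
  rw [Function.update_self, Function.update_idem] at h3
  exact h1.trans h3

theorem sz_eq_zero {v : ℤ × ℤ} : sz v = 0 ↔ v = 0 := by
  unfold sz
  constructor
  · intro h
    refine Prod.ext ?_ ?_
    · simp only [Prod.fst_zero]
      omega
    · simp only [Prod.snd_zero]
      omega
  · rintro rfl
    rfl

theorem red_pair (w : Fin (n + 2) → ℤ × ℤ) {i j : Fin (n + 2)} (hij : i ≠ j)
    (hi : (w i).1 = 0 ∨ (w i).2 = 0) (hj : (w j).1 = 0 ∨ (w j).2 = 0) (hi0 : w i ≠ 0) (hj0 : w j ≠ 0)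
    (h : sz (w j) ≤ sz (w i)) : ∃ w', Rz w w' ∧ mu w' < mu w := by
  obtain ⟨p, h1, h2⟩ := norm_x w i hi
  set u := Function.update w i (p, 0) with hu
  have huj : u j = w j := by rw [hu, Function.update_of_ne hij.symm]
  obtain ⟨q, h3, h4⟩ := norm_y u j (by rw [huj]; exact hj)
  rw [huj] at h4
  set v := Function.update u j (0, q) with hv
  have hvi : v i = (p, 0) := by rw [hv, Function.update_of_ne hij, hu, Function.update_self]
  have hvj : v j = (0, q) := by rw [hv, Function.update_self]
  have hp : p ≠ 0 := by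
    rintro rfl
    exact hi0 (sz_eq_zero.1 (by rw [← h2]; rfl))
  have hq : q ≠ 0 := by
    rintro rfl
    exact hj0 (sz_eq_zero.1 (by rw [← h4]; rfl))
  obtain ⟨w', h5, h6⟩ := red_two v hij hvi hvj hp hq (by rw [h2, h4]; exact h)
  refine ⟨w', h1.trans (h3.trans h5), ?_⟩
  have e1 := mu_update w i (p, 0)
  have e2 := mu_update u j (0, q)
  rw [huj] at e2
  have s1 : sz (p, 0) = p.natAbs := by simp [sz]
  have s2 : sz (0, q) = q.natAbs := by simp [sz]
  rw [s1] at e1
  rw [s2] at e2
  rw [← hu] at e1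
  rw [← hv] at e2
  omega

/-- **Euclid**: every integer tuple is equivalent to one with a single entry. -/
theorem euclid (w : Fin (n + 2) → ℤ × ℤ) :
    ∃ d : ℤ, Rz w (fun i => if i = 0 then (d, 0) else (0, 0)) := by
  induction' hm : mu w using Nat.strong_induction_on with m ih generalizing w
  by_cases hb : ∃ i, (w i).1 ≠ 0 ∧ (w i).2 ≠ 0
  · obtain ⟨i, hx, hy⟩ := hb
    obtain ⟨w', h1, h2⟩ := red_both w i hx hy
    obtain ⟨d, h3⟩ := ih (mu w') (by omega) w' rfl
    exact ⟨d, h1.trans h3⟩
  · have hb' : ∀ i, (w i).1 = 0 ∨ (w i).2 = 0 := by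
      intro i
      by_contra hc
      rw [not_or] at hc
      exact hb ⟨i, hc.1, hc.2⟩
    by_cases h2 : ∃ i j, i ≠ j ∧ w i ≠ 0 ∧ w j ≠ 0
    · obtain ⟨i, j, hij, hi0, hj0⟩ := h2
      rcases le_total (sz (w j)) (sz (w i)) with h | h
      · obtain ⟨w', h1, h2⟩ := red_pair w hij (hb' i) (hb' j) hi0 hj0 h
        obtain ⟨d, h3⟩ := ih (mu w') (by omega) w' rfl
        exact ⟨d, h1.trans h3⟩
      · obtain ⟨w', h1, h2⟩ := red_pair w hij.symm (hb' j) (hb' i) hj0 hi0 h
        obtain ⟨d, h3⟩ := ih (mu w') (by omega) w' rfl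
        exact ⟨d, h1.trans h3⟩
    · by_cases h3 : ∃ i, w i ≠ 0
      · obtain ⟨i, hi⟩ := h3
        have h4 : ∀ j, j ≠ i → w j = 0 := by
          intro j hj
          by_contra hc
          exact h2 ⟨j, i, hj, hc, hi⟩
        have h5 := rz_perm w (Equiv.swap 0 i)
        set u := w ∘ (Equiv.swap 0 i) with hu
        have hu0 : u 0 = w i := by
          rw [hu, Function.comp_apply, Equiv.swap_apply_left]
        obtain ⟨p, h6, _⟩ := norm_x u 0 (by rw [hu0]; exact hb' i)
        refine ⟨p, h5.trans ?_⟩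
        convert h6 using 1
        funext k
        by_cases hk : k = 0
        · subst hk
          rw [if_pos rfl, Function.update_self]
        · rw [if_neg hk, Function.update_of_ne hk, hu, Function.comp_apply]
          symm
          apply h4
          intro hc
          have := congrArg (Equiv.swap 0 i) hc
          rw [Equiv.swap_apply_self, Equiv.swap_apply_right] at this
          exact hk this
      · refine ⟨0, ?_⟩
        have h4 : w = fun i => if i = 0 then (0, 0) else (0, 0) := by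
          funext i
          have : w i = 0 := by
            by_contra hc
            exact h3 ⟨i, hc⟩
          rw [this]
          split_ifs <;> rfl
        rw [h4]
        exact Rz.refl _

end Pool.Agent.PrymAff
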