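import Pool.Agent.Lib.MP_943dad_ag.AG.Main

/-!
# One orbit of surjections onto an affine group
-/

open scoped commutatorElement

namespace Pool.Agent.PrymAff

open Aff

/-- `C` generates `F` as a ring -/
def Generates {F : Type} [Field F] (C : Subgroup Fˣ) : Prop :=
  Subring.closure {a : F | ∃ u ∈ C, (u : F) = a} = ⊤

/-- some ring endomorphism of `F` inverts all elements of `C` -/
def Inverted {F : Type} [Field F] (C : Subgroup Fˣ) : Prop :=
  ∃ σ : F →+* F, ∀ u ∈ C, σ (u : F) = (u : F)⁻¹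

/-- after an automorphism of the surface group, `φ` maps `x_0` to `t ↦ c t`, `x_1` to `t ↦ t + 1` and all
other generators to `1` -/
def HasNormalForm {g : ℕ} {F : Type} [Field F] {C : Subgroup Fˣ} (c : C)
    (φ : SurfaceGroup g →* Aff F C) : Prop :=
  ∃ θ : SurfaceGroup g ≃* SurfaceGroup g, ∀ i : Fin g,
    φ (θ (X i)) = (if (i : ℕ) = 0 then ⟨0, c⟩ else if (i : ℕ) = 1 then ⟨1, 1⟩ else 1) ∧ φ (θ (Y i)) = 1

/-- a generator exists -/
theorem exists_gen {F : Type} [Field F] [Finite F] (C : Subgroup Fˣ) :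
    ∃ c : C, ∀ u : C, u ∈ Subgroup.zpowers c := by
  have : IsCyclic C := Subgroup.isCyclic C
  exact IsCyclic.exists_generator

/-- the value of the normal form -/
def nf {g : ℕ} {F : Type} [Field F] {C : Subgroup Fˣ} (c : C) (i : Fin g) : Aff F C :=
  if (i : ℕ) = 0 then ⟨0, c⟩ else if (i : ℕ) = 1 then ⟨1, 1⟩ else 1

theorem TT_w0 {n : ℕ} {F : Type} [Field F] {C : Subgroup Fˣ} (c : C) (i : Fin (n + 2)) :
    TT c (w0 n F) i = (nf c i, 1) := by
  unfold TT nf w0
  by_cases h0 : i = 0
  · subst h0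
    simp
  · rw [if_neg h0]
    have h0' : (i : ℕ) ≠ 0 := fun h => h0 (Fin.ext h)
    rw [if_neg h0']
    by_cases h1 : i = 1
    · subst h1
      simp
      exact ⟨rfl, rfl⟩
    · have h1' : (i : ℕ) ≠ 1 := by
        intro h
        apply h1
        apply Fin.ext
        rw [h]
        simp
      rw [if_neg h1', if_neg h1]
      rfl

theorem normal_form' {F : Type} [Field F] {C : Subgroup Fˣ} {c : C} (h : Hyp c) {g : ℕ} (hg : 3 ≤ g)
    (φ : SurfaceGroup g →* Aff F C) (hφ : Function.Surjective φ) :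
    ∃ θ : SurfaceGroup g ≃* SurfaceGroup g, ∀ i : Fin g, φ (θ (X i)) = nf c i ∧ φ (θ (Y i)) = 1 := by
  obtain ⟨n, rfl⟩ : ∃ n, g = n + 3 := ⟨g - 3, by omega⟩
  obtain ⟨θ, hθ⟩ := normal_form h φ hφ
  refine ⟨θ, fun i => ?_⟩
  have h1 := congrFun hθ i
  rw [TT_w0] at h1
  exact Prod.mk.inj h1

theorem transitive {F : Type} [Field F] {C : Subgroup Fˣ} {c : C} (h : Hyp c) {g : ℕ} (hg : 3 ≤ g)
    (φ ψ : SurfaceGroup g →* Aff F C) (hφ : Function.Surjective φ) (hψ : Function.Surjective ψ) :
    ∃ θ : SurfaceGroup g ≃* SurfaceGroup g, ψ = φ.comp θ.toMonoidHom := by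
  obtain ⟨θ1, h1⟩ := normal_form' h hg φ hφ
  obtain ⟨θ2, h2⟩ := normal_form' h hg ψ hψ
  have h3 : ψ.comp θ2.toMonoidHom = φ.comp θ1.toMonoidHom := by
    apply hom_ext
    funext i
    show (ψ (θ2 (X i)), ψ (θ2 (Y i))) = (φ (θ1 (X i)), φ (θ1 (Y i)))
    rw [(h1 i).1, (h1 i).2, (h2 i).1, (h2 i).2]
  refine ⟨θ2.symm.trans θ1, ?_⟩
  refine DFunLike.ext _ _ fun s => ?_
  have h4 := DFunLike.congr_fun h3 (θ2.symm s)
  show ψ s = φ (θ1 (θ2.symm s))
  have h5 : ψ (θ2 (θ2.symm s)) = φ (θ1 (θ2.symm s)) := h4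
  rw [MulEquiv.apply_symm_apply] at h5
  exact h5

/-- a surjection exists -/
theorem exists_surj {F : Type} [Field F] {C : Subgroup Fˣ} {c : C} (h : Hyp c) {g : ℕ} (hg : 2 ≤ g) :
    ∃ φ : SurfaceGroup g →* Aff F C, Function.Surjective φ := by
  obtain ⟨n, rfl⟩ : ∃ n, g = n + 2 := ⟨g - 2, by omega⟩
  refine ⟨ofTup (TT c (w0 n F)) (flat_TT c (w0 n F)).com_eq, ?_⟩
  set φ := ofTup (TT c (w0 n F)) (flat_TT c (w0 n F)).com_eq with hφ
  have ht : tup φ = TT c (w0 n F) := tup_ofTup _ _
  have h0 : (⟨0, c⟩ : Aff F C) ∈ φ.range := ⟨X 0, by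
    have := congrFun ht 0
    rw [TT_zero] at this
    exact congrArg Prod.fst this⟩
  have h1 : (tr 1 : Aff F C) ∈ φ.range := ⟨X 1, by
    have := congrFun ht 1
    rw [TT_ne c _ (by simp)] at this
    have h2 := congrArg Prod.fst this
    have h3 : (w0 n F 1).1 = 1 := by
      unfold w0
      rw [if_pos rfl]
    rw [h3] at h2
    exact h2⟩
  have hC : ∀ u : C, (⟨0, u⟩ : Aff F C) ∈ φ.range := by
    let K : Subgroup C :=
      { carrier := {u | (⟨0, u⟩ : Aff F C) ∈ φ.range}
        one_mem' := φ.range.one_mem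
        mul_mem' := fun {u v} hu hv => by
          have h2 := φ.range.mul_mem hu hv
          have h3 : (⟨0, u⟩ : Aff F C) * ⟨0, v⟩ = ⟨0, u * v⟩ := by
            rw [mul_def]
            refine Aff.ext ?_ rfl
            show (0 : F) + ((u : Fˣ) : F) * 0 = 0
            ring
          rw [h3] at h2
          exact h2
        inv_mem' := fun {u} hu => by
          have h2 := φ.range.inv_mem hu
          have h3 : (⟨0, u⟩ : Aff F C)⁻¹ = ⟨0, u⁻¹⟩ := by
            rw [inv_def]
            refine Aff.ext ?_ rfl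
            show -(((u⁻¹ : C) : Fˣ) : F) * 0 = 0
            ring
          rw [h3] at h2
          exact h2 }
    intro u
    have h2 : Subgroup.zpowers c ≤ K := by
      rw [Subgroup.zpowers_le]
      exact h0
    exact h2 (h.cyc u)
  -- the translations
  let D : AddSubgroup F :=
    { carrier := {s | (tr s : Aff F C) ∈ φ.range}
      zero_mem' := φ.range.one_mem
      add_mem' := fun {s t} hs ht => by
        have h2 := φ.range.mul_mem hs ht
        rw [tr_mul] at h2
        exact h2
      neg_mem' := fun {s} hs => by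
        have h2 := φ.range.inv_mem hs
        rw [tr_inv] at h2
        exact h2 }
  have hD : (⊤ : Subring F) ≤ mult D := by
    rw [← h.gen, Subring.closure_le]
    rintro _ ⟨u, hu, rfl⟩
    intro s hs
    have h2 := φ.range.mul_mem (φ.range.mul_mem (hC ⟨u, hu⟩) hs) (φ.range.inv_mem (hC ⟨u, hu⟩))
    rw [conj_tr] at h2
    exact h2
  have hT : ∀ s : F, (tr s : Aff F C) ∈ φ.range := by
    intro s
    have h2 : s * 1 ∈ D := hD (Subring.mem_top s) 1 h1
    rw [mul_one] at h2
    exact h2
  intro u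
  have h2 : u = tr u.b * ⟨0, u.a⟩ := by
    unfold tr
    rw [mul_def]
    refine Aff.ext ?_ (one_mul _).symm
    show u.b = u.b + (((1 : C) : Fˣ) : F) * 0
    ring
  have h3 : u ∈ φ.range := by
    rw [h2]
    exact φ.range.mul_mem (hT _) (hC _)
  exact h3

/-- the group of all units of a field with at least five elements satisfies the hypotheses -/
theorem hyp_top {F : Type} [Field F] [Finite F] (hF : 5 ≤ Nat.card F) :
    Subring.closure {a : F | ∃ u ∈ (⊤ : Subgroup Fˣ), (u : F) = a} = ⊤ ∧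
      ¬ ∃ σ : F →+* F, ∀ u ∈ (⊤ : Subgroup Fˣ), σ (u : F) = (u : F)⁻¹ := by
  constructor
  · rw [eq_top_iff]
    intro x _
    by_cases hx : x = 0
    · subst hx
      exact Subring.zero_mem _
    · exact Subring.subset_closure ⟨Units.mk0 x hx, Subgroup.mem_top _, rfl⟩
  · rintro ⟨σ, hσ⟩
    have h1 : ∀ x : F, x ≠ 0 → σ x = x⁻¹ := fun x hx => hσ (Units.mk0 x hx) (Subgroup.mem_top _)
    have h2 : ∀ x : F, x ≠ 0 → x ≠ -1 → x ^ 2 + x + 1 = 0 := by
      intro x hx hx1
      have hx2 : x + 1 ≠ 0 := fun h => hx1 (eq_neg_of_add_eq_zero_left h)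
      have h3 : σ (x + 1) = (x + 1)⁻¹ := h1 _ hx2
      rw [map_add, map_one, h1 x hx] at h3
      have h4 : (x⁻¹ + 1) * (x + 1) = 1 := by
        rw [h3, inv_mul_cancel₀ hx2]
      have h5 : x * ((x⁻¹ + 1) * (x + 1)) = x * 1 := by rw [h4]
      have h6 : x * ((x⁻¹ + 1) * (x + 1)) = (x + 1) * (x + 1) := by
        have : x * (x⁻¹ + 1) = 1 + x := by
          rw [mul_add, mul_inv_cancel₀ hx, mul_one]
        rw [← mul_assoc, this]
        ring
      rw [h6] at h5
      linear_combination h5
    -- at most four elements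
    have : Fintype F := Fintype.ofFinite F
    classical
    have h3 : (Finset.univ : Finset F) ⊆ {0, -1} ∪ (Polynomial.X ^ 2 + Polynomial.X + 1 :
        Polynomial F).roots.toFinset := by
      intro x _
      rw [Finset.mem_union]
      by_cases hx : x = 0
      · left
        simp [hx]
      · by_cases hx1 : x = -1
        · left
          simp [hx1]
        · right
          rw [Multiset.mem_toFinset, Polynomial.mem_roots']
          constructor
          · intro h
            have := congrArg (fun p => Polynomial.coeff p 0) h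
            simp at this
          · simp [Polynomial.IsRoot, h2 x hx hx1]
    have h4 := Finset.card_le_card h3
    have h5 : (Polynomial.X ^ 2 + Polynomial.X + 1 : Polynomial F).roots.toFinset.card ≤ 2 := by
      refine (Multiset.toFinset_card_le _).trans ((Polynomial.card_roots' _).trans ?_)
      compute_degree
    have h6 : (({0, -1} : Finset F)).card ≤ 2 := Finset.card_le_two
    have h7 := Finset.card_union_le ({0, -1} : Finset F) (Polynomial.X ^ 2 + Polynomial.X + 1 :
        Polynomial F).roots.toFinset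
    rw [Finset.card_univ, ← Nat.card_eq_fintype_card] at h4
    omega

end Pool.Agent.PrymAff
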