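import Pool.Agent.Lib.MP_943dad_ag.AG.Aff

/-!
# Normal form of the surjections of a surface group onto an affine group
-/

open scoped commutatorElement

namespace Pool.Agent.PrymAff

open Aff

section general

variable {g : ℕ} {G : Type} [Group G]

theorem range_le (φ : SurfaceGroup g →* G) (K : Subgroup G)
    (h : ∀ i, (tup φ i).1 ∈ K ∧ (tup φ i).2 ∈ K) (s : SurfaceGroup g) : φ s ∈ K := by
  have h1 : s ∈ Subgroup.closure (Set.range (PresentedGroup.of (rels := {rel g}))) := by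
    rw [PresentedGroup.closure_range_of]
    trivial
  have h2 : Subgroup.closure (Set.range (PresentedGroup.of (rels := {rel g}))) ≤ K.comap φ := by
    rw [Subgroup.closure_le]
    rintro _ ⟨⟨i, b⟩, rfl⟩
    cases b
    · exact (h i).1
    · exact (h i).2
  exact h2 h1

theorem TEqv.com_right {a b : Tup g G} (h : TEqv a b) : com b = 1 := by
  obtain ⟨φ, ψ, _, h2, _⟩ := h
  rw [← h2]
  exact com_tup ψ

/-- change of one handle -/
def QQ (i : Fin g) (v v' : G × G) : Prop :=
  ∀ a : Tup g G, com a = 1 → a i = v → TEqv a (Function.update a i v')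

theorem QQ.trans {i : Fin g} {v v' v'' : G × G} (h : QQ i v v') (h' : QQ i v' v'') : QQ i v v'' := by
  intro a ha hv
  have h1 := h a ha hv
  have h2 := h' _ h1.com_right (Function.update_self i v' a)
  rw [Function.update_idem] at h2
  exact h1.trans h2

theorem QQ.k (i : Fin g) (K : One) (v : G × G) : QQ i v (K.k v) := by
  rintro a ha rfl
  exact (K.at' i).teqv a ha

theorem QQ.ki (i : Fin g) (K : One) (v : G × G) : QQ i v (K.ki v) := by
  rintro a ha rfl
  exact (K.at' i).symm.teqv a ha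

theorem conj_hom {φ : SurfaceGroup g →* G} (hφ : Function.Surjective φ) (u : G) :
    ∃ θ : SurfaceGroup g ≃* SurfaceGroup g, ∀ s, φ (θ s) = u * φ s * u⁻¹ := by
  obtain ⟨w, rfl⟩ := hφ u
  refine ⟨MulAut.conj w, fun s => ?_⟩
  rw [MulAut.conj_apply, map_mul, map_mul, map_inv]

end general

variable {n : ℕ} {F : Type} [Field F] {C : Subgroup Fˣ}

/-- the hypotheses on `(F, C)`, with a generator `c` of `C` -/
structure Hyp (c : C) : Prop where
  gen : Subring.closure {a : F | ∃ u ∈ C, (u : F) = a} = ⊤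
  dual : ¬ ∃ σ : F →+* F, ∀ u ∈ C, σ (u : F) = (u : F)⁻¹
  cyc : ∀ u : C, u ∈ Subgroup.zpowers c

theorem Hyp.ne_one {c : C} (h : Hyp c) : c ≠ 1 := by
  rintro rfl
  apply h.dual
  refine ⟨RingHom.id F, fun u hu => ?_⟩
  have h1 := h.cyc ⟨u, hu⟩
  rw [Subgroup.zpowers_one_eq_bot, Subgroup.mem_bot] at h1
  have h2 : u = 1 := congrArg Subtype.val h1
  rw [h2]
  simp

/-- the scalings of a handle which can be realised -/
def KK (c : C) (j : Fin (n + 2)) : Subgroup C where
  carrier := {u | ∀ w : Fin (n + 2) → F × F, Rt c w (scl j ((u : Fˣ) : F) w)}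
  one_mem' := fun w => by
    have : scl j (((1 : C) : Fˣ) : F) w = w := by
      unfold scl
      push_cast
      rw [one_mul, one_mul]
      exact Function.update_eq_self _ _
    rw [this]
    exact Rt.refl c w
  mul_mem' := fun {u v} hu hv w => by
    have h1 := (hu w).trans (hv _)
    convert h1 using 1
    unfold scl
    rw [Function.update_self, Function.update_idem]
    push_cast
    congr 1
    refine Prod.ext ?_ ?_
    · show ((u : Fˣ) : F) * ((v : Fˣ) : F) * (w j).1 = ((v : Fˣ) : F) * (((u : Fˣ) : F) * (w j).1)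
      ring
    · show ((u : Fˣ) : F) * ((v : Fˣ) : F) * (w j).2 = ((v : Fˣ) : F) * (((u : Fˣ) : F) * (w j).2)
      ring
  inv_mem' := fun {u} hu w => by
    have h1 := hu (scl j (((u⁻¹ : C) : Fˣ) : F) w)
    have h2 : scl j ((u : Fˣ) : F) (scl j (((u⁻¹ : C) : Fˣ) : F) w) = w := by
      unfold scl
      rw [Function.update_self, Function.update_idem]
      have h3 : ((u : Fˣ) : F) * (((u⁻¹ : C) : Fˣ) : F) = 1 := by
        push_cast
        exact mul_inv_cancel₀ (Units.ne_zero _)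
      have h4 : (((u : Fˣ) : F) * ((((u⁻¹ : C) : Fˣ) : F) * (w j).1),
        ((u : Fˣ) : F) * ((((u⁻¹ : C) : Fˣ) : F) * (w j).2)) = w j := by
        rw [← mul_assoc, ← mul_assoc, h3, one_mul, one_mul]
      show Function.update w j (((u : Fˣ) : F) * ((((u⁻¹ : C) : Fˣ) : F) * (w j).1),
        ((u : Fˣ) : F) * ((((u⁻¹ : C) : Fˣ) : F) * (w j).2)) = w
      rw [h4]
      exact Function.update_eq_self _ _
    rw [h2] at h1
    exact h1.symm

theorem rt_scl' {c : C} (h : Hyp c) {j : Fin (n + 2)} (hj : j ≠ 0) (u : C) (w : Fin (n + 2) → F × F) :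
    Rt c w (scl j ((u : Fˣ) : F) w) := by
  have h1 : Subgroup.zpowers c ≤ KK (n := n) c j := by
    rw [Subgroup.zpowers_le]
    exact fun w => rt_scl c hj w
  exact h1 (h.cyc u) w

theorem mul_mem_DD' {c : C} (h : Hyp c) {i j : Fin (n + 2)} (hj : j ≠ 0) (hij : i ≠ j) (u : C) :
    ((((u : Fˣ) : F), ((u : Fˣ) : F)⁻¹) : F × F) ∈ mult (DD c hij) := by
  intro p hp w
  have h1 := rt_scl' h hj u w
  have h2 := hp (scl j ((u : Fˣ) : F) w)
  rw [scl_opv hij _ (Units.ne_zero _)] at h2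
  exact h1.trans (h2.trans (rt_scl' h hj u _).symm)

theorem DD_top {c : C} (h : Hyp c) {i j : Fin (n + 2)} (hi : i ≠ 0) (hj : j ≠ 0) (hij : i ≠ j)
    (p : F × F) : p ∈ DD c hij := by
  have hS : mult (DD c hij) = ⊤ := by
    have h1 : (⊤ : Subring F) ≤ (mult (DD c hij)).map (RingHom.fst F F) := by
      rw [← h.gen, Subring.closure_le]
      rintro _ ⟨u, hu, rfl⟩
      exact ⟨_, mul_mem_DD' h hj hij ⟨u, hu⟩, rfl⟩
    have h2 : (⊤ : Subring F) ≤ (mult (DD c hij)).map (RingHom.snd F F) := by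
      rw [← h.gen, Subring.closure_le]
      rintro _ ⟨u, hu, rfl⟩
      refine ⟨_, mul_mem_DD' h hj hij ⟨u⁻¹, C.inv_mem hu⟩, ?_⟩
      show (((u⁻¹ : Fˣ) : F))⁻¹ = (u : F)
      rw [Units.val_inv_eq_inv_val, inv_inv]
    apply goursat (mult (DD c hij)) _ _ (fun x y => ∃ u ∈ C, x = (u : F) ∧ y = (u : F)⁻¹)
    · rintro x y ⟨u, hu, rfl, rfl⟩
      exact mul_mem_DD' h hj hij ⟨u, hu⟩
    · rintro ⟨σ, hσ⟩
      exact h.dual ⟨σ, fun u hu => hσ _ _ ⟨u, hu, rfl, rfl⟩⟩
    · intro x
      obtain ⟨⟨a, b⟩, hab, rfl⟩ := h1 (Subring.mem_top x)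
      exact ⟨b, hab⟩
    · intro y
      obtain ⟨⟨a, b⟩, hab, rfl⟩ := h2 (Subring.mem_top y)
      exact ⟨a, hab⟩
  have hp : p ∈ mult (DD c hij) := by
    rw [hS]
    exact Subring.mem_top p
  have := hp _ (one_mem_DD c hi hj hij)
  rw [show ((1, 1) : F × F) = 1 from rfl, mul_one] at this
  exact this

/-- the first coordinate of the handle `j` can be changed -/
theorem rt_x {c : C} (h : Hyp c) {i j : Fin (n + 2)} (hi : i ≠ 0) (hj : j ≠ 0) (hij : i ≠ j)
    (w : Fin (n + 2) → F × F) (hy : (w i).2 ≠ 0) (x : F) :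
    Rt c w (Function.update w j (x, (w j).2)) := by
  have h1 := DD_top h hi hj hij ((0 : F), (x - (w j).1) / (w i).2) w
  convert h1 using 1
  unfold opv
  have e1 : ((w i).1 + (0 : F) * (w j).2, (w i).2) = w i := by
    rw [zero_mul, add_zero]
  have e2 : (w j).1 + (x - (w j).1) / (w i).2 * (w i).2 = x := by
    rw [div_mul_cancel₀ _ hy]
    ring
  show _ = Function.update (Function.update w i ((w i).1 + (0 : F) * (w j).2, (w i).2)) j
    ((w j).1 + (x - (w j).1) / (w i).2 * (w i).2, (w j).2)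
  rw [e1, e2, Function.update_eq_self]

theorem rt_set_y {c : C} (h : Hyp c) {i j : Fin (n + 2)} (hi : i ≠ 0) (hj : j ≠ 0) (hij : i ≠ j)
    (w : Fin (n + 2) → F × F) (hy : (w i).2 ≠ 0) (p : F × F) :
    Rt c w (Function.update w j p) := by
  have h1 := rt_x h hi hj hij w hy (-p.2)
  have h2 := rt_rot c (Function.update w j (-p.2, (w j).2)) hj
  rw [Function.update_self, Function.update_idem] at h2
  have h3 := rt_x h hi hj hij (Function.update w j ((w j).2, - -p.2))
    (by rw [Function.update_of_ne hij]; exact hy) p.1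
  rw [Function.update_self, Function.update_idem] at h3
  have h4 := h1.trans (h2.trans h3)
  rw [neg_neg] at h4
  exact h4

theorem rt_set {c : C} (h : Hyp c) {i j : Fin (n + 2)} (hi : i ≠ 0) (hj : j ≠ 0) (hij : i ≠ j)
    (w : Fin (n + 2) → F × F) (hw : w i ≠ 0) (p : F × F) :
    Rt c w (Function.update w j p) := by
  by_cases hy : (w i).2 = 0
  · have hx : (w i).1 ≠ 0 := by
      intro hx
      exact hw (Prod.ext hx hy)
    have h1 := rt_rot c w hi
    set u := Function.update w i ((w i).2, -(w i).1) with hu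
    have h2 := rt_set_y h hi hj hij u (by
      rw [hu, Function.update_self]
      exact neg_ne_zero.2 hx) p
    have h3 := rt_rot c (Function.update w j p) hi
    rw [Function.update_of_ne hij, Function.update_comm hij.symm] at h3
    exact h1.trans (h2.trans h3.symm)
  · exact rt_set_y h hi hj hij w hy p

theorem TT_congr (c : C) {w w' : Fin (n + 2) → F × F} (h : ∀ i, i ≠ 0 → w i = w' i) :
    TT c w = TT c w' := by
  funext i
  by_cases hi : i = 0
  · subst hi
    rw [TT_zero, TT_zero]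
  · rw [TT_ne c _ hi, TT_ne c _ hi, h i hi]

theorem rt_kill {c : C} (h : Hyp c) (w : Fin (n + 2) → F × F) (hw : w 1 ≠ 0)
    (s : Finset (Fin (n + 2))) (hs : 0 ∉ s) (hs1 : 1 ∉ s) :
    Rt c w (fun i => if i ∈ s then 0 else w i) := by
  induction s using Finset.induction_on with
  | empty =>
    simp only [Finset.notMem_empty, if_false]
    exact Rt.refl c w
  | insert a s ha ih =>
    rw [Finset.mem_insert, not_or] at hs hs1
    have h1 := ih hs.2 hs1.2
    have h2 := rt_set h (i := 1) (j := a) (by simp) (Ne.symm hs.1) hs1.1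
      (fun i => if i ∈ s then 0 else w i) (by rw [if_neg hs1.2]; exact hw) 0
    refine h1.trans ?_
    convert h2 using 1
    funext k
    by_cases hk : k = a
    · subst hk
      rw [Function.update_self, if_pos (Finset.mem_insert_self _ _)]
    · rw [Function.update_of_ne hk]
      by_cases hks : k ∈ s
      · rw [if_pos hks, if_pos (Finset.mem_insert_of_mem hks)]
      · rw [if_neg hks, if_neg]
        rw [Finset.mem_insert, not_or]
        exact ⟨hk, hks⟩

/-- the normal form -/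
def w0 (n : ℕ) (F : Type) [Field F] : Fin (n + 2) → F × F := fun i => if i = 1 then (1, 0) else 0

theorem rt_final' {c : C} (h : Hyp c) (w : Fin (n + 2) → F × F) (hw : w 1 = (1, 0)) :
    Rt c w (w0 n F) := by
  have h1 := rt_kill h w (by
    rw [hw]
    intro hc
    exact one_ne_zero (congrArg Prod.fst hc)) (Finset.univ.filter fun i => i ≠ 0 ∧ i ≠ 1) (by simp) (by simp)
  unfold Rt at h1 ⊢
  convert h1 using 1
  apply TT_congr
  intro i hi
  unfold w0
  by_cases h1 : i = 1
  · subst h1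
    simp [hw]
  · simp [hi, h1]

theorem rt_final {c : C} (h : Hyp c) (w : Fin (n + 3) → F × F) {j : Fin (n + 3)} (hj : j ≠ 0)
    (hw : w j ≠ 0) : Rt c w (w0 (n + 1) F) := by
  have h01 : (1 : Fin (n + 3)) ≠ 0 := by simp
  have h02 : (2 : Fin (n + 3)) ≠ 0 := by
    intro hc
    have := congrArg Fin.val hc
    simp at this
    rw [Nat.mod_eq_of_lt (by omega)] at this
    omega
  have h12 : (1 : Fin (n + 3)) ≠ 2 := by
    intro hc
    have := congrArg Fin.val hc
    simp at this
    rw [Nat.mod_eq_of_lt (by omega)] at this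
    omega
  by_cases hj1 : j = 1
  · subst hj1
    have h1 := rt_set h h01 h02 h12 w hw (1, 0)
    have h2 := rt_set h h02 h01 h12.symm (Function.update w 2 (1, 0)) (by
      rw [Function.update_self]
      intro hc
      exact one_ne_zero (congrArg Prod.fst hc)) (1, 0)
    have h3 := rt_final' h (Function.update (Function.update w 2 (1, 0)) 1 (1, 0)) (by
      rw [Function.update_self])
    exact h1.trans (h2.trans h3)
  · have h1 := rt_set h hj h01 hj1 w hw (1, 0)
    have h3 := rt_final' h (Function.update w 1 (1, 0)) (by rw [Function.update_self])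
    exact h1.trans h3

theorem stage_a (φ : SurfaceGroup (n + 2) →* Aff F C) {c : C} (hc : ∀ u : C, u ∈ Subgroup.zpowers c) :
    ∃ (θ : SurfaceGroup (n + 2) ≃* SurfaceGroup (n + 2)) (d : ℤ),
      ∀ i, (lin (tup (φ.comp θ.toMonoidHom) i).1 = if i = 0 then c ^ d else 1) ∧
        lin (tup (φ.comp θ.toMonoidHom) i).2 = 1 := by
  have he : ∀ u : C, ∃ k : ℤ, c ^ k = u := fun u => Subgroup.mem_zpowers_iff.1 (hc u)
  choose e he using he
  set v : Fin (n + 2) → ℤ × ℤ := fun i => (e (lin (φ (X i))), e (lin (φ (Y i)))) with hv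
  obtain ⟨d, hd⟩ := euclid v
  have h1 := TEqv.map hd (zpowersHom C c)
  have h2 : mp (zpowersHom C c) (tm v) = tup (lin.comp φ) := by
    funext i
    show (zpowersHom C c (Multiplicative.ofAdd (v i).1), zpowersHom C c (Multiplicative.ofAdd (v i).2)) =
      (lin (φ (X i)), lin (φ (Y i)))
    rw [zpowersHom_apply, zpowersHom_apply, toAdd_ofAdd, toAdd_ofAdd, he, he]
  rw [h2] at h1
  obtain ⟨θ, hθ⟩ := h1.to_hom
  refine ⟨θ, d, fun i => ?_⟩
  have h3 := congrFun hθ i
  have h4 : tup ((lin.comp φ).comp θ.toMonoidHom) i =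
    (lin (tup (φ.comp θ.toMonoidHom) i).1, lin (tup (φ.comp θ.toMonoidHom) i).2) := rfl
  rw [h4] at h3
  have h5 : mp (zpowersHom C c) (tm fun i : Fin (n + 2) => if i = 0 then ((d, 0) : ℤ × ℤ) else (0, 0)) i =
    (if i = 0 then c ^ d else 1, 1) := by
    unfold mp tm
    rw [zpowersHom_apply, zpowersHom_apply, toAdd_ofAdd, toAdd_ofAdd]
    by_cases hi : i = 0
    · simp [hi]
    · simp [hi]
  rw [h5, Prod.mk.injEq] at h3
  exact h3

theorem stage_b {g : ℕ} {a : Tup g (Aff F C)} (ha : com a = 1) (i : Fin g) {c : C} {d e : ℤ}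
    (h1 : lin (a i).1 = c ^ d) (h2 : lin (a i).2 = 1) (he : (c ^ d) ^ e = c) :
    ∃ v, TEqv a (Function.update a i v) ∧ lin v.1 = c ∧ lin v.2 = 1 := by
  refine ⟨RR.ki ((TX (-d)).k (RR.k ((TX (-e)).k (RR.k (a i))))), ?_, ?_, ?_⟩
  · exact ((QQ.k i RR (a i)).trans ((QQ.k i (TX (-e)) _).trans ((QQ.k i RR _).trans
      ((QQ.k i (TX (-d)) _).trans (QQ.ki i RR _))))) a ha rfl
  · show lin ((((a i).1 * (a i).2 * (a i).1⁻¹) * ((a i).1⁻¹) ^ (-e))⁻¹)⁻¹ = c
    rw [inv_inv, map_mul, map_mul, map_mul, map_zpow, map_inv, h1, h2, mul_one, mul_inv_cancel, one_mul,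
      inv_zpow', neg_neg, he]
  · have hA : lin ((a i).1 * (a i).2 * (a i).1⁻¹ * ((a i).1⁻¹) ^ (-e)) = c := by
      rw [map_mul, map_mul, map_mul, map_zpow, map_inv, h1, h2, mul_one, mul_inv_cancel, one_mul,
        inv_zpow', neg_neg, he]
    show lin (((a i).1 * (a i).2 * (a i).1⁻¹ * ((a i).1⁻¹) ^ (-e))⁻¹ *
      (((a i).1 * (a i).2 * (a i).1⁻¹ * ((a i).1⁻¹) ^ (-e)) * (a i).1⁻¹ *
        ((a i).1 * (a i).2 * (a i).1⁻¹ * ((a i).1⁻¹) ^ (-e))⁻¹ *
        (((a i).1 * (a i).2 * (a i).1⁻¹ * ((a i).1⁻¹) ^ (-e))⁻¹) ^ (-d)) *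
      (((a i).1 * (a i).2 * (a i).1⁻¹ * ((a i).1⁻¹) ^ (-e))⁻¹)⁻¹) = 1
    set A := (a i).1 * (a i).2 * (a i).1⁻¹ * ((a i).1⁻¹) ^ (-e) with hAdef
    simp only [map_mul, map_inv, map_zpow, hA, h1]
    rw [inv_zpow', neg_neg]
    group

theorem stage_c {g : ℕ} {a : Tup (g + 1) (Aff F C)} (ha : com a = 1) {c : C} (hc : c ≠ 1)
    (h1 : lin (a 0).1 = c) (h2 : lin (a 0).2 = 1)
    (h3 : ∀ i, i ≠ 0 → lin (a i).1 = 1 ∧ lin (a i).2 = 1) : (a 0).2 = 1 := by
  have h4 : ⁅(a 0).1, (a 0).2⁆ = 1 := by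
    have e := ha
    unfold com at e
    rw [List.ofFn_succ, List.prod_cons] at e
    have e2 : (List.ofFn fun i : Fin g => ⁅(a i.succ).1, (a i.succ).2⁆).prod = 1 := by
      apply List.prod_eq_one
      intro x hx
      rw [List.mem_ofFn] at hx
      obtain ⟨i, rfl⟩ := hx
      have h5 := h3 i.succ (Fin.succ_ne_zero i)
      show ⁅(a i.succ).1, (a i.succ).2⁆ = 1
      rw [eq_tr h5.1, eq_tr h5.2, commutatorElement_eq_one_iff_commute]
      exact tr_commute _ _
    rw [e2, mul_one] at e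
    exact e
  rw [commutatorElement_eq_one_iff_mul_comm] at h4
  have h5 := congrArg Aff.b h4
  have e1 : ((a 0).1 * (a 0).2).b = (a 0).1.b + ((c : Fˣ) : F) * (a 0).2.b := by
    rw [mul_def]
    have : (a 0).1.a = c := h1
    rw [this]
  have e2 : ((a 0).2 * (a 0).1).b = (a 0).2.b + (a 0).1.b := by
    rw [mul_def]
    have : (a 0).2.a = 1 := h2
    rw [this]
    push_cast
    rw [one_mul]
  rw [e1, e2] at h5
  have h6 : (((c : Fˣ) : F) - 1) * (a 0).2.b = 0 := by
    linear_combination h5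
  have h7 : ((c : Fˣ) : F) - 1 ≠ 0 := by
    intro h
    apply hc
    apply Subtype.ext
    apply Units.ext
    exact sub_eq_zero.1 h
  rcases mul_eq_zero.1 h6 with h | h
  · exact absurd h h7
  · rw [eq_tr h2, h, tr_zero]

/-- **Normal form.** -/
theorem normal_form {c : C} (h : Hyp c) (φ : SurfaceGroup (n + 3) →* Aff F C)
    (hφ : Function.Surjective φ) :
    ∃ θ : SurfaceGroup (n + 3) ≃* SurfaceGroup (n + 3),
      tup (φ.comp θ.toMonoidHom) = TT c (w0 (n + 1) F) := by
  obtain ⟨θ1, d, h1⟩ := stage_a φ h.cyc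
  set φ1 := φ.comp θ1.toMonoidHom with hφ1
  have hs1 : Function.Surjective φ1 := hφ.comp θ1.surjective
  -- the exponent
  have hd : ∃ e : ℤ, (c ^ d) ^ e = c := by
    obtain ⟨s, hs⟩ := hs1 (⟨0, c⟩ : Aff F C)
    have h2 := range_le (lin.comp φ1) (Subgroup.zpowers (c ^ d)) (fun i => by
      have h3 := h1 i
      refine ⟨?_, ?_⟩
      · show lin (tup φ1 i).1 ∈ _
        rw [h3.1]
        split_ifs
        · exact Subgroup.mem_zpowers _
        · exact Subgroup.one_mem _
      · show lin (tup φ1 i).2 ∈ _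
        rw [h3.2]
        exact Subgroup.one_mem _) s
    have h4 : (lin.comp φ1) s = c := by
      show lin (φ1 s) = c
      rw [hs]
      rfl
    rw [h4] at h2
    exact Subgroup.mem_zpowers_iff.1 h2
  obtain ⟨e, he⟩ := hd
  have h10 := h1 0
  rw [if_pos rfl] at h10
  obtain ⟨v, hv, hv1, hv2⟩ := stage_b (com_tup φ1) 0 h10.1 h10.2 he
  obtain ⟨θ2, hθ2⟩ := hv.to_hom
  set φ2 := φ1.comp θ2.toMonoidHom with hφ2
  have hs2 : Function.Surjective φ2 := hs1.comp θ2.surjective
  have h20 : tup φ2 0 = v := by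
    rw [hθ2, Function.update_self]
  have h2i : ∀ i, i ≠ 0 → lin (tup φ2 i).1 = 1 ∧ lin (tup φ2 i).2 = 1 := by
    intro i hi
    rw [hθ2, Function.update_of_ne hi]
    have := h1 i
    rw [if_neg hi] at this
    exact this
  have h2y : (tup φ2 0).2 = 1 := stage_c (com_tup φ2) h.ne_one (by rw [h20, hv1]) (by rw [h20, hv2]) h2i
  -- the inner automorphism
  have hc1 : ((c : Fˣ) : F) - 1 ≠ 0 := by
    intro h'
    apply h.ne_one
    apply Subtype.ext
    apply Units.ext
    exact sub_eq_zero.1 h'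
  obtain ⟨θ3, hθ3⟩ := conj_hom hs2 (tr ((tup φ2 0).1.b / (((c : Fˣ) : F) - 1)))
  set φ3 := φ2.comp θ3.toMonoidHom with hφ3
  have hs3 : Function.Surjective φ3 := hs2.comp θ3.surjective
  have h30 : tup φ3 0 = (⟨0, c⟩, 1) := by
    refine Prod.ext ?_ ?_
    · show φ2 (θ3 (X 0)) = ⟨0, c⟩
      rw [hθ3]
      show tr _ * (tup φ2 0).1 * (tr _)⁻¹ = _
      have h5 : (tup φ2 0).1 = ⟨(tup φ2 0).1.b, c⟩ := Aff.ext rfl (by
        show lin (tup φ2 0).1 = c
        rw [h20, hv1])
      set b := (tup φ2 0).1.b with hb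
      rw [h5, mul_inv_eq_iff_eq_mul]
      unfold tr
      rw [mul_def, mul_def]
      refine Aff.ext ?_ ?_
      · show b / (((c : Fˣ) : F) - 1) + (((1 : C) : Fˣ) : F) * b =
          0 + ((c : Fˣ) : F) * (b / (((c : Fˣ) : F) - 1))
        push_cast
        field_simp
        ring
      · show (1 : C) * c = c * 1
        rw [one_mul, mul_one]
    · show φ2 (θ3 (Y 0)) = 1
      rw [hθ3]
      show tr _ * (tup φ2 0).2 * (tr _)⁻¹ = _
      rw [h2y, mul_one, mul_inv_cancel]
  have h3i : ∀ i, i ≠ 0 → tup φ3 i = (tr (tup φ3 i).1.b, tr (tup φ3 i).2.b) := by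
    intro i hi
    have h5 := h2i i hi
    have h6 : lin (tup φ3 i).1 = 1 := by
      show lin (φ2 (θ3 (X i))) = 1
      rw [hθ3, map_mul, map_mul, map_inv]
      show lin _ * lin (tup φ2 i).1 * _ = _
      rw [h5.1, mul_one, mul_inv_cancel]
    have h7 : lin (tup φ3 i).2 = 1 := by
      show lin (φ2 (θ3 (Y i))) = 1
      rw [hθ3, map_mul, map_mul, map_inv]
      show lin _ * lin (tup φ2 i).2 * _ = _
      rw [h5.2, mul_one, mul_inv_cancel]
    exact Prod.ext (eq_tr h6) (eq_tr h7)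
  set w : Fin (n + 3) → F × F := fun i => ((tup φ3 i).1.b, (tup φ3 i).2.b) with hw
  have h3T : tup φ3 = TT c w := by
    funext i
    by_cases hi : i = 0
    · subst hi
      rw [TT_zero, h30]
    · rw [TT_ne c _ hi, h3i i hi, hw]
  -- some translation is not trivial
  have hj : ∃ j, j ≠ 0 ∧ w j ≠ 0 := by
    by_contra hcon
    have h0 : ∀ j, j ≠ 0 → w j = 0 := by
      intro j hj
      by_contra hne
      exact hcon ⟨j, hj, hne⟩
    let K : Subgroup (Aff F C) :=
      { carrier := {u | u.b = 0}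
        one_mem' := rfl
        mul_mem' := fun {u v} hu hv => by
          show u.b + ((u.a : Fˣ) : F) * v.b = 0
          have hu' : u.b = 0 := hu
          have hv' : v.b = 0 := hv
          rw [hu', hv']
          ring
        inv_mem' := fun {u} hu => by
          show -(((u.a⁻¹ : C) : Fˣ) : F) * u.b = 0
          have hu' : u.b = 0 := hu
          rw [hu']
          ring }
    obtain ⟨s, hs⟩ := hs3 (tr 1)
    have h8 := range_le φ3 K (fun i => by
      rw [h3T]
      by_cases hi : i = 0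
      · subst hi
        rw [TT_zero]
        exact ⟨rfl, rfl⟩
      · rw [TT_ne c _ hi, h0 i hi]
        exact ⟨rfl, rfl⟩) s
    rw [hs] at h8
    have h9 : (1 : F) = 0 := h8
    exact one_ne_zero h9
  obtain ⟨j, hj0, hj1⟩ := hj
  have hfin := rt_final h w hj0 hj1
  unfold Rt at hfin
  rw [← h3T] at hfin
  obtain ⟨θ4, hθ4⟩ := hfin.to_hom
  refine ⟨((θ4.trans θ3).trans θ2).trans θ1, ?_⟩
  rw [← hθ4]
  rfl

end Pool.Agent.PrymAff
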