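import Pool.Agent.Lib.MP_943dad_ag.AG.Surf

/-!
# Permutations of handles and operations on two arbitrary handles
-/

open scoped commutatorElement

namespace Pool.Agent.PrymAff

variable {n : ℕ} {G : Type} [Group G]

/-- all handles have trivial commutators -/
def Flat {g : ℕ} (a : Tup g G) : Prop := ∀ i, ⁅(a i).1, (a i).2⁆ = 1

theorem Flat.com_eq {g : ℕ} {a : Tup g G} (h : Flat a) : com a = 1 := by
  unfold com
  apply List.prod_eq_one
  intro x hx
  rw [List.mem_ofFn] at hx
  obtain ⟨i, rfl⟩ := hx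
  exact h i

theorem Flat.perm {g : ℕ} {a : Tup g G} (h : Flat a) (σ : Equiv.Perm (Fin g)) : Flat (a ∘ σ) :=
  fun i => h (σ i)

theorem com_rot_aux {n : ℕ} (c : Fin (n + 1) → G) (h : (List.ofFn c).prod = 1) :
    (List.ofFn fun i => c (finRotate (n + 1) i)).prod = 1 := by
  rw [List.ofFn_succ, List.prod_cons] at h
  rw [List.ofFn_succ', List.concat_eq_append, List.prod_append, List.prod_singleton]
  have h1 : (fun i : Fin n => c (finRotate (n + 1) i.castSucc)) = fun i => c i.succ := by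
    funext i
    congr 1
    rw [finRotate_apply, Fin.coeSucc_eq_succ]
  have h2 : finRotate (n + 1) (Fin.last n) = 0 := finRotate_last
  rw [h1, h2]
  rw [mul_eq_one_iff_inv_eq] at h
  rw [← h, inv_mul_cancel]

theorem com_rot_aux' {n : ℕ} (c : Fin (n + 1) → G) (h : (List.ofFn fun i => c (finRotate (n + 1) i)).prod = 1) :
    (List.ofFn c).prod = 1 := by
  rw [List.ofFn_succ', List.concat_eq_append, List.prod_append, List.prod_singleton] at h
  rw [List.ofFn_succ, List.prod_cons]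
  have h1 : (fun i : Fin n => c (finRotate (n + 1) i.castSucc)) = fun i => c i.succ := by
    funext i
    congr 1
    rw [finRotate_apply, Fin.coeSucc_eq_succ]
  have h2 : finRotate (n + 1) (Fin.last n) = 0 := finRotate_last
  rw [h1, h2] at h
  rw [mul_eq_one_iff_eq_inv] at h
  rw [h, mul_inv_cancel]

/-- rotation of the handles -/
def rotM (n : ℕ) : Move (n + 1) where
  f := fun a i => a (finRotate (n + 1) i)
  fi := fun a i => a ((finRotate (n + 1)).symm i)
  nat := fun ψ a => rfl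
  nati := fun ψ a => rfl
  l := fun a => by simp
  r := fun a => by simp
  p := fun a h => com_rot_aux (fun i => ⁅(a i).1, (a i).2⁆) h
  pi := fun a h => by
    apply com_rot_aux' (fun i => ⁅(a ((finRotate (n + 1)).symm i)).1, (a ((finRotate (n + 1)).symm i)).2⁆)
    simp only [Equiv.symm_apply_apply]
    exact h

/-- permutations which can be realised -/
def PermOK (n : ℕ) (σ : Equiv.Perm (Fin (n + 2))) : Prop :=
  ∃ M : Move (n + 2), ∀ {G : Type} [Group G] (a : Tup (n + 2) G), Flat a → M.f a = a ∘ σ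

theorem PermOK.mul {σ τ : Equiv.Perm (Fin (n + 2))} (hσ : PermOK n σ) (hτ : PermOK n τ) :
    PermOK n (σ * τ) := by
  obtain ⟨M, hM⟩ := hσ
  obtain ⟨N, hN⟩ := hτ
  refine ⟨M.trans N, fun a ha => ?_⟩
  show N.f (M.f a) = _
  rw [hM a ha, hN _ (ha.perm σ)]
  rfl

theorem PermOK.inv {σ : Equiv.Perm (Fin (n + 2))} (hσ : PermOK n σ) : PermOK n σ⁻¹ := by
  obtain ⟨M, hM⟩ := hσ
  refine ⟨M.symm, fun a ha => ?_⟩
  show M.fi a = _
  have h1 := hM (a ∘ ⇑σ⁻¹) (ha.perm σ⁻¹)
  have h2 : (a ∘ ⇑σ⁻¹) ∘ ⇑σ = a := by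
    funext i
    simp
  rw [h2] at h1
  have h3 : M.fi (M.f (a ∘ ⇑σ⁻¹)) = a ∘ ⇑σ⁻¹ := M.l _
  rw [h1] at h3
  exact h3

theorem PermOK.one : PermOK n 1 := by
  refine ⟨(rotM (n + 1)).trans (rotM (n + 1)).symm, fun a _ => ?_⟩
  show (rotM (n + 1)).fi ((rotM (n + 1)).f a) = _
  rw [(rotM (n + 1)).l]
  rfl

theorem PermOK.rot : PermOK n (finRotate (n + 2)) := ⟨rotM (n + 1), fun _ _ => rfl⟩

theorem PermOK.swap : PermOK n (Equiv.swap 0 1) := by
  refine ⟨SS.at' n, fun a ha => ?_⟩
  show up2 a (SS.k (a 0) (a 1)).1 (SS.k (a 0) (a 1)).2 = _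
  have h0 : SS.k (a 0) (a 1) = (a 1, a 0) := by
    unfold SS
    simp only [ha 0]
    simp
  rw [h0]
  funext j
  unfold up2
  by_cases h1 : j = 1
  · subst h1
    simp
  · by_cases h0 : j = 0
    · subst h0
      simp
    · simp [h1, h0, Equiv.swap_apply_of_ne_of_ne]

theorem PermOK.all (σ : Equiv.Perm (Fin (n + 2))) : PermOK n σ := by
  have h := Equiv.Perm.closure_cycle_adjacent_swap (isCycle_finRotate (n := n)) support_finRotate (0 : Fin (n + 2))
  have h1 : σ ∈ Subgroup.closure ({finRotate (n + 2), Equiv.swap 0 (finRotate (n + 2) 0)} :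
      Set (Equiv.Perm (Fin (n + 2)))) := by
    rw [h]
    trivial
  induction h1 using Subgroup.closure_induction with
  | mem x hx =>
    rcases hx with rfl | hx
    · exact PermOK.rot
    · rw [Set.mem_singleton_iff] at hx
      subst hx
      have : finRotate (n + 2) 0 = 1 := by
        rw [finRotate_apply, zero_add]
      rw [this]
      exact PermOK.swap
  | one => exact PermOK.one
  | mul x y _ _ hx hy => exact hx.mul hy
  | inv x _ hx => exact hx.inv

theorem teqv_perm {a : Tup (n + 2) G} (ha : Flat a) (σ : Equiv.Perm (Fin (n + 2))) : TEqv a (a ∘ σ) := by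
  obtain ⟨M, hM⟩ := PermOK.all σ
  rw [← hM a ha]
  exact M.teqv a ha.com_eq

theorem teqv_one {g : ℕ} (K : One) {a : Tup g G} (ha : com a = 1) (i : Fin g) :
    TEqv a (Function.update a i (K.k (a i))) := (K.at' i).teqv a ha

/-- an operation on two arbitrary handles -/
theorem teqv_two (K : Two) {a : Tup (n + 2) G} (ha : Flat a) {i j : Fin (n + 2)} (hij : i ≠ j)
    (h1 : ⁅(K.k (a i) (a j)).1.1, (K.k (a i) (a j)).1.2⁆ = 1)
    (h2 : ⁅(K.k (a i) (a j)).2.1, (K.k (a i) (a j)).2.2⁆ = 1) :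
    TEqv a (Function.update (Function.update a i (K.k (a i) (a j)).1) j (K.k (a i) (a j)).2) := by
  obtain ⟨σ, hσ0, hσ1⟩ : ∃ σ : Equiv.Perm (Fin (n + 2)), σ 0 = i ∧ σ 1 = j := by
    refine ⟨Equiv.swap (Equiv.swap 0 i 1) j * Equiv.swap 0 i, ?_, ?_⟩
    · rw [Equiv.Perm.mul_apply, Equiv.swap_apply_left]
      apply Equiv.swap_apply_of_ne_of_ne _ hij
      intro h
      have := congrArg (Equiv.swap 0 i) h
      rw [Equiv.swap_apply_right, Equiv.swap_apply_self] at this
      exact absurd this (by simp)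
    · rw [Equiv.Perm.mul_apply, Equiv.swap_apply_left]
  have e1 := teqv_perm ha σ
  have hf := ha.perm σ
  have e2 := (K.at' n).teqv (a ∘ σ) hf.com_eq
  have e3 : (K.at' n).f (a ∘ σ) = up2 (a ∘ σ) (K.k (a i) (a j)).1 (K.k (a i) (a j)).2 := by
    show up2 (a ∘ σ) (K.k ((a ∘ σ) 0) ((a ∘ σ) 1)).1 (K.k ((a ∘ σ) 0) ((a ∘ σ) 1)).2 = _
    simp only [Function.comp_apply, hσ0, hσ1]
  rw [e3] at e2
  have hf2 : Flat (up2 (a ∘ σ) (K.k (a i) (a j)).1 (K.k (a i) (a j)).2) := by
    intro k
    by_cases hk1 : k = 1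
    · subst hk1
      rw [up2_one, h2]
    · by_cases hk0 : k = 0
      · subst hk0
        rw [up2_zero, h1]
      · have : up2 (a ∘ σ) (K.k (a i) (a j)).1 (K.k (a i) (a j)).2 k = a (σ k) := by
          unfold up2
          rw [Function.update_of_ne hk1, Function.update_of_ne hk0]
          rfl
        rw [this]
        exact ha _
  have e4 := teqv_perm hf2 σ⁻¹
  have e5 : (up2 (a ∘ σ) (K.k (a i) (a j)).1 (K.k (a i) (a j)).2) ∘ ⇑σ⁻¹ =
      Function.update (Function.update a i (K.k (a i) (a j)).1) j (K.k (a i) (a j)).2 := by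
    funext k
    show up2 (a ∘ σ) (K.k (a i) (a j)).1 (K.k (a i) (a j)).2 (σ⁻¹ k) = _
    by_cases hkj : k = j
    · subst hkj
      rw [Function.update_self]
      have : σ⁻¹ k = 1 := by
        rw [Equiv.Perm.inv_eq_iff_eq, hσ1]
      rw [this, up2_one]
    · by_cases hki : k = i
      · subst hki
        rw [Function.update_of_ne hkj, Function.update_self]
        have : σ⁻¹ k = 0 := by
          rw [Equiv.Perm.inv_eq_iff_eq, hσ0]
        rw [this, up2_zero]
      · rw [Function.update_of_ne hkj, Function.update_of_ne hki]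
        unfold up2
        rw [Function.update_of_ne, Function.update_of_ne]
        · simp
        · rw [Ne, Equiv.Perm.inv_eq_iff_eq, hσ0]
          exact hki
        · rw [Ne, Equiv.Perm.inv_eq_iff_eq, hσ1]
          exact hkj
  rw [e5] at e4
  exact e1.trans (e2.trans e4)

theorem flat_update {g : ℕ} {a : Tup g G} (ha : Flat a) (i : Fin g) {v : G × G} (hv : ⁅v.1, v.2⁆ = 1) :
    Flat (Function.update a i v) := by
  intro k
  by_cases hk : k = i
  · subst hk
    rw [Function.update_self, hv]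
  · rw [Function.update_of_ne hk]
    exact ha k

/-- `x_i ↦ x_i y_j`, `x_j ↦ x_j y_i` for commuting handles -/
theorem teqv_add {a : Tup (n + 2) G} (ha : Flat a) {i j : Fin (n + 2)} (hij : i ≠ j)
    (c1 : Commute (a i).1 (a i).2) (c2 : Commute (a i).1 (a j).1) (c3 : Commute (a i).1 (a j).2)
    (c4 : Commute (a i).2 (a j).1) (c5 : Commute (a i).2 (a j).2) (c6 : Commute (a j).1 (a j).2) :
    TEqv a (Function.update (Function.update a i ((a i).1 * (a j).2, (a i).2)) j
      ((a j).1 * (a i).2, (a j).2)) := by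
  have hz : (a j).1 * (a j).2 * (a j).1⁻¹ = (a j).2 := by
    rw [c6.eq, mul_inv_cancel_right]
  have k1 : (ZZ.k (a i) (a j)).1 = ((a i).1 * ((a i).2⁻¹ * (a j).2), (a i).2) := by
    show ((a i).1 * ((a i).2⁻¹ * ((a j).1 * (a j).2 * (a j).1⁻¹)),
      ((a i).2⁻¹ * ((a j).1 * (a j).2 * (a j).1⁻¹))⁻¹ * (a i).2 *
      ((a i).2⁻¹ * ((a j).1 * (a j).2 * (a j).1⁻¹))) = _
    rw [hz]
    refine Prod.ext rfl ?_
    show ((a i).2⁻¹ * (a j).2)⁻¹ * (a i).2 * ((a i).2⁻¹ * (a j).2) = (a i).2
    rw [mul_inv_rev, inv_inv, mul_assoc, mul_inv_cancel_left, mul_assoc, c5.eq, inv_mul_cancel_left]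
  have k2 : (ZZ.k (a i) (a j)).2 = (((a i).2⁻¹ * (a j).2)⁻¹ * (a j).1, (a j).2) := by
    show (((a i).2⁻¹ * ((a j).1 * (a j).2 * (a j).1⁻¹))⁻¹ * (a j).1, (a j).2) = _
    rw [hz]
  have e1 := teqv_two ZZ ha hij (by
    rw [k1]
    rw [commutatorElement_eq_one_iff_commute]
    exact (c1.mul_left (((Commute.refl _).inv_left).mul_left c5.symm))) (by
    rw [k2]
    rw [commutatorElement_eq_one_iff_commute]
    exact ((c5.inv_left.mul_left (Commute.refl _)).inv_left).mul_left c6)
  rw [k1, k2] at e1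
  set b := Function.update (Function.update a i ((a i).1 * ((a i).2⁻¹ * (a j).2), (a i).2)) j
    (((a i).2⁻¹ * (a j).2)⁻¹ * (a j).1, (a j).2) with hb
  have bi : b i = ((a i).1 * ((a i).2⁻¹ * (a j).2), (a i).2) := by
    rw [hb, Function.update_of_ne hij, Function.update_self]
  have bj : b j = (((a i).2⁻¹ * (a j).2)⁻¹ * (a j).1, (a j).2) := by
    rw [hb, Function.update_self]
  have hbc : com b = 1 := by
    obtain ⟨φ, ψ, _, h2, _⟩ := e1
    rw [← h2]
    exact com_tup ψ
  have e2 := teqv_one (TX 1) hbc i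
  have k3 : (TX 1).k (b i) = ((a i).1 * (a j).2, (a i).2) := by
    rw [bi]
    show ((a i).1 * ((a i).2⁻¹ * (a j).2) * (a i).2 ^ (1 : ℤ), (a i).2) = _
    refine Prod.ext ?_ rfl
    show (a i).1 * ((a i).2⁻¹ * (a j).2) * (a i).2 ^ (1 : ℤ) = (a i).1 * (a j).2
    rw [zpow_one, mul_assoc, mul_assoc, c5.symm.eq, inv_mul_cancel_left]
  rw [k3] at e2
  set d := Function.update b i ((a i).1 * (a j).2, (a i).2) with hd
  have dj : d j = (((a i).2⁻¹ * (a j).2)⁻¹ * (a j).1, (a j).2) := by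
    rw [hd, Function.update_of_ne hij.symm, bj]
  have hdc : com d = 1 := by
    obtain ⟨φ, ψ, _, h2, _⟩ := e2
    rw [← h2]
    exact com_tup ψ
  have e3 := teqv_one (TX 1) hdc j
  have k4 : (TX 1).k (d j) = ((a j).1 * (a i).2, (a j).2) := by
    rw [dj]
    show (((a i).2⁻¹ * (a j).2)⁻¹ * (a j).1 * (a j).2 ^ (1 : ℤ), (a j).2) = _
    refine Prod.ext ?_ rfl
    show ((a i).2⁻¹ * (a j).2)⁻¹ * (a j).1 * (a j).2 ^ (1 : ℤ) = (a j).1 * (a i).2
    rw [zpow_one, mul_inv_rev, inv_inv, mul_assoc, mul_assoc, c6.eq, ← mul_assoc (a i).2, c5.eq,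
      mul_assoc, inv_mul_cancel_left, c4.eq]
  rw [k4] at e3
  have e4 : Function.update d j ((a j).1 * (a i).2, (a j).2) =
      Function.update (Function.update a i ((a i).1 * (a j).2, (a i).2)) j ((a j).1 * (a i).2, (a j).2) := by
    funext k
    by_cases hkj : k = j
    · subst hkj
      rw [Function.update_self, Function.update_self]
    · rw [Function.update_of_ne hkj, Function.update_of_ne hkj, hd]
      by_cases hki : k = i
      · subst hki
        rw [Function.update_self, Function.update_self]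
      · rw [Function.update_of_ne hki, Function.update_of_ne hki, hb, Function.update_of_ne hkj,
          Function.update_of_ne hki]
  rw [e4] at e3
  exact e1.trans (e2.trans e3)

end Pool.Agent.PrymAff
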