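import Mathlib

/-!
# Surface groups, tuples and moves
-/

open scoped commutatorElement

namespace Pool.Agent.PrymAff

/-- The relator `[x_0,y_0][x_1,y_1]⋯[x_(g-1),y_(g-1)]` in the free group on `x_i = (i, false)` and
`y_i = (i, true)`. -/
def rel (g : ℕ) : FreeGroup (Fin g × Bool) :=
  (List.ofFn fun i : Fin g => ⁅FreeGroup.of (i, false), FreeGroup.of (i, true)⁆).prod

/-- The fundamental group of the closed orientable surface of genus `g`. -/
abbrev SurfaceGroup (g : ℕ) : Type := PresentedGroup ({rel g} : Set (FreeGroup (Fin g × Bool)))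

/-- the generator `x_i` -/
def X {g : ℕ} (i : Fin g) : SurfaceGroup g := PresentedGroup.of (i, false)

/-- the generator `y_i` -/
def Y {g : ℕ} (i : Fin g) : SurfaceGroup g := PresentedGroup.of (i, true)

/-- tuples of pairs -/
abbrev Tup (g : ℕ) (G : Type) : Type := Fin g → G × G

section basic

variable {g : ℕ} {G G' : Type} [Group G] [Group G']

/-- product of the commutators -/
def com (a : Tup g G) : G := (List.ofFn fun i => ⁅(a i).1, (a i).2⁆).prod

/-- image of a tuple under a homomorphism -/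
def mp (ψ : G →* G') (a : Tup g G) : Tup g G' := fun i => (ψ (a i).1, ψ (a i).2)

theorem com_mp (ψ : G →* G') (a : Tup g G) : com (mp ψ a) = ψ (com a) := by
  unfold com mp
  rw [map_list_prod, List.map_ofFn]
  congr 2
  funext i
  simp [map_commutatorElement]

/-- the tuple of a homomorphism -/
def tup (φ : SurfaceGroup g →* G) : Tup g G := fun i => (φ (X i), φ (Y i))

theorem com_id : com (tup (MonoidHom.id (SurfaceGroup g))) = 1 := by
  have h : PresentedGroup.mk ({rel g} : Set (FreeGroup (Fin g × Bool))) (rel g) = 1 :=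
    PresentedGroup.one_of_mem rfl
  have h2 : mp (PresentedGroup.mk ({rel g} : Set (FreeGroup (Fin g × Bool))))
      (fun i : Fin g => (FreeGroup.of (i, false), FreeGroup.of (i, true))) = tup (MonoidHom.id (SurfaceGroup g)) := rfl
  rw [← h2, com_mp]
  exact h

theorem tup_comp (φ : SurfaceGroup g →* G) (ψ : G →* G') : tup (ψ.comp φ) = mp ψ (tup φ) := rfl

theorem tup_eq_mp (φ : SurfaceGroup g →* G) : tup φ = mp φ (tup (MonoidHom.id (SurfaceGroup g))) := rfl

theorem com_tup (φ : SurfaceGroup g →* G) : com (tup φ) = 1 := by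
  rw [tup_eq_mp, com_mp, com_id, map_one]

/-- the homomorphism with a given tuple -/
def ofTup (a : Tup g G) (h : com a = 1) : SurfaceGroup g →* G :=
  PresentedGroup.toGroup (f := fun s : Fin g × Bool => if s.2 then (a s.1).2 else (a s.1).1) (by
    intro r hr
    rw [Set.mem_singleton_iff] at hr
    subst hr
    unfold rel
    rw [map_list_prod, List.map_ofFn]
    refine Eq.trans ?_ h
    unfold com
    congr 2
    funext i
    simp [map_commutatorElement])

theorem tup_ofTup (a : Tup g G) (h : com a = 1) : tup (ofTup a h) = a := by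
  funext i
  unfold tup ofTup X Y
  rw [PresentedGroup.toGroup.of, PresentedGroup.toGroup.of]
  simp

theorem hom_ext {φ ψ : SurfaceGroup g →* G} (h : tup φ = tup ψ) : φ = ψ := by
  apply PresentedGroup.ext
  rintro ⟨i, b⟩
  have := congrFun h i
  unfold tup at this
  rw [Prod.mk.injEq] at this
  cases b
  · exact this.1
  · exact this.2

/-- equivalence under automorphisms of the surface group -/
def Eqv (φ ψ : SurfaceGroup g →* G) : Prop :=
  ∃ θ : SurfaceGroup g ≃* SurfaceGroup g, ψ = φ.comp θ.toMonoidHom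

theorem Eqv.refl (φ : SurfaceGroup g →* G) : Eqv φ φ := ⟨MulEquiv.refl _, rfl⟩

theorem Eqv.trans {φ ψ χ : SurfaceGroup g →* G} (h : Eqv φ ψ) (h' : Eqv ψ χ) : Eqv φ χ := by
  obtain ⟨θ, rfl⟩ := h
  obtain ⟨θ', rfl⟩ := h'
  exact ⟨θ'.trans θ, rfl⟩

theorem Eqv.symm {φ ψ : SurfaceGroup g →* G} (h : Eqv φ ψ) : Eqv ψ φ := by
  obtain ⟨θ, rfl⟩ := h
  refine ⟨θ.symm, ?_⟩
  ext x
  simp

/-- equivalence of tuples -/
def TEqv (a b : Tup g G) : Prop := ∃ φ ψ : SurfaceGroup g →* G, tup φ = a ∧ tup ψ = b ∧ Eqv φ ψ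

theorem TEqv.refl {a : Tup g G} (h : com a = 1) : TEqv a a :=
  ⟨ofTup a h, ofTup a h, tup_ofTup a h, tup_ofTup a h, Eqv.refl _⟩

theorem TEqv.symm {a b : Tup g G} (h : TEqv a b) : TEqv b a := by
  obtain ⟨φ, ψ, h1, h2, h3⟩ := h
  exact ⟨ψ, φ, h2, h1, h3.symm⟩

theorem TEqv.trans {a b c : Tup g G} (h : TEqv a b) (h' : TEqv b c) : TEqv a c := by
  obtain ⟨φ, ψ, h1, h2, h3⟩ := h
  obtain ⟨φ', ψ', h1', h2', h3'⟩ := h'
  have h4 : ψ = φ' := hom_ext (h2.trans h1'.symm)
  subst h4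
  exact ⟨φ, ψ', h1, h2', h3.trans h3'⟩

theorem TEqv.to_hom {φ : SurfaceGroup g →* G} {b : Tup g G} (h : TEqv (tup φ) b) :
    ∃ θ : SurfaceGroup g ≃* SurfaceGroup g, tup (φ.comp θ.toMonoidHom) = b := by
  obtain ⟨φ', ψ, h1, h2, θ, h3⟩ := h
  have h4 : φ' = φ := hom_ext h1
  subst h4
  exact ⟨θ, by rw [← h3, h2]⟩

theorem TEqv.map {a b : Tup g G} (h : TEqv a b) (ψ : G →* G') : TEqv (mp ψ a) (mp ψ b) := by
  obtain ⟨φ, φ', h1, h2, θ, h3⟩ := h
  refine ⟨ψ.comp φ, ψ.comp φ', ?_, ?_, θ, ?_⟩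
  · rw [tup_comp, h1]
  · rw [tup_comp, h2]
  · rw [h3]
    rfl

end basic

/-- Natural operations on tuples, with an inverse, which keep the relation. -/
structure Move (g : ℕ) where
  f : ∀ {G : Type} [Group G], Tup g G → Tup g G
  fi : ∀ {G : Type} [Group G], Tup g G → Tup g G
  nat : ∀ {G G' : Type} [Group G] [Group G'] (ψ : G →* G') (a : Tup g G), f (mp ψ a) = mp ψ (f a)
  nati : ∀ {G G' : Type} [Group G] [Group G'] (ψ : G →* G') (a : Tup g G), fi (mp ψ a) = mp ψ (fi a)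
  l : ∀ {G : Type} [Group G] (a : Tup g G), fi (f a) = a
  r : ∀ {G : Type} [Group G] (a : Tup g G), f (fi a) = a
  p : ∀ {G : Type} [Group G] (a : Tup g G), com a = 1 → com (f a) = 1
  pi : ∀ {G : Type} [Group G] (a : Tup g G), com a = 1 → com (fi a) = 1

namespace Move

variable {g : ℕ}

theorem teqv (M : Move g) {G : Type} [Group G] (a : Tup g G) (ha : com a = 1) : TEqv a (M.f a) := by
  set u : Tup g (SurfaceGroup g) := tup (MonoidHom.id (SurfaceGroup g)) with hu
  have hu1 : com u = 1 := com_id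
  let θ : SurfaceGroup g →* SurfaceGroup g := ofTup (M.f u) (M.p u hu1)
  let θ' : SurfaceGroup g →* SurfaceGroup g := ofTup (M.fi u) (M.pi u hu1)
  have h1 : tup θ = M.f u := tup_ofTup _ _
  have h2 : tup θ' = M.fi u := tup_ofTup _ _
  have h3 : θ.comp θ' = MonoidHom.id _ := by
    apply hom_ext
    rw [tup_comp, h2, ← M.nati, ← tup_eq_mp, h1, M.l]
  have h4 : θ'.comp θ = MonoidHom.id _ := by
    apply hom_ext
    rw [tup_comp, h1, ← M.nat, ← tup_eq_mp, h2, M.r]
  refine ⟨ofTup a ha, (ofTup a ha).comp θ, tup_ofTup a ha, ?_, MonoidHom.toMulEquiv θ θ' h4 h3, rfl⟩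
  rw [tup_comp, h1, ← M.nat, ← tup_eq_mp, tup_ofTup]

/-- composition: first `M`, then `N` -/
def trans (M N : Move g) : Move g where
  f := fun a => N.f (M.f a)
  fi := fun a => M.fi (N.fi a)
  nat := fun ψ a => by rw [M.nat, N.nat]
  nati := fun ψ a => by rw [N.nati, M.nati]
  l := fun a => by rw [N.l, M.l]
  r := fun a => by rw [M.r, N.r]
  p := fun a h => N.p _ (M.p _ h)
  pi := fun a h => M.pi _ (N.pi _ h)

/-- the inverse -/
def symm (M : Move g) : Move g where
  f := M.fi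
  fi := M.f
  nat := M.nati
  nati := M.nat
  l := M.r
  r := M.l
  p := M.pi
  pi := M.p

end Move

/-- operations on one handle which keep the commutator -/
structure One where
  k : ∀ {G : Type} [Group G], G × G → G × G
  ki : ∀ {G : Type} [Group G], G × G → G × G
  nat : ∀ {G G' : Type} [Group G] [Group G'] (ψ : G →* G') (v : G × G),
    k (ψ v.1, ψ v.2) = (ψ (k v).1, ψ (k v).2)
  nati : ∀ {G G' : Type} [Group G] [Group G'] (ψ : G →* G') (v : G × G),
    ki (ψ v.1, ψ v.2) = (ψ (ki v).1, ψ (ki v).2)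
  l : ∀ {G : Type} [Group G] (v : G × G), ki (k v) = v
  r : ∀ {G : Type} [Group G] (v : G × G), k (ki v) = v
  c : ∀ {G : Type} [Group G] (v : G × G), ⁅(k v).1, (k v).2⁆ = ⁅v.1, v.2⁆

theorem One.ci (K : One) {G : Type} [Group G] (v : G × G) : ⁅(K.ki v).1, (K.ki v).2⁆ = ⁅v.1, v.2⁆ := by
  rw [← K.c (K.ki v), K.r]

theorem com_update {g : ℕ} {G : Type} [Group G] (a : Tup g G) (i : Fin g) (v : G × G)
    (h : ⁅v.1, v.2⁆ = ⁅(a i).1, (a i).2⁆) : com (Function.update a i v) = com a := by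
  unfold com
  congr 2
  funext j
  by_cases hj : j = i
  · subst hj
    rw [Function.update_self, h]
  · rw [Function.update_of_ne hj]

theorem mp_update {g : ℕ} {G G' : Type} [Group G] [Group G'] (ψ : G →* G') (a : Tup g G) (i : Fin g)
    (v : G × G) : mp ψ (Function.update a i v) = Function.update (mp ψ a) i (ψ v.1, ψ v.2) := by
  funext j
  by_cases hj : j = i
  · subst hj
    unfold mp
    rw [Function.update_self, Function.update_self]
  · unfold mp
    rw [Function.update_of_ne hj, Function.update_of_ne hj]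

/-- the operation on the handle `i` -/
def One.at' {g : ℕ} (K : One) (i : Fin g) : Move g where
  f := fun a => Function.update a i (K.k (a i))
  fi := fun a => Function.update a i (K.ki (a i))
  nat := fun ψ a => by rw [mp_update, ← K.nat]; rfl
  nati := fun ψ a => by rw [mp_update, ← K.nati]; rfl
  l := fun a => by rw [Function.update_self, Function.update_idem, K.l, Function.update_eq_self]
  r := fun a => by rw [Function.update_self, Function.update_idem, K.r, Function.update_eq_self]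
  p := fun a h => by rw [com_update _ _ _ (K.c _), h]
  pi := fun a h => by rw [com_update _ _ _ (K.ci _), h]

/-- `(x, y) ↦ (x y^n, y)` -/
def TX (n : ℤ) : One where
  k := fun v => (v.1 * v.2 ^ n, v.2)
  ki := fun v => (v.1 * v.2 ^ (-n), v.2)
  nat := fun ψ v => by simp
  nati := fun ψ v => by simp
  l := fun v => by simp
  r := fun v => by simp
  c := fun v => by
    simp only [commutatorElement_def]
    group

/-- `(x, y) ↦ (x y x⁻¹, x⁻¹)` -/
def RR : One where
  k := fun v => (v.1 * v.2 * v.1⁻¹, v.1⁻¹)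
  ki := fun v => (v.2⁻¹, v.2 * v.1 * v.2⁻¹)
  nat := fun ψ v => by simp
  nati := fun ψ v => by simp
  l := fun v => by
    ext <;> simp <;> group
  r := fun v => by
    ext <;> simp <;> group
  c := fun v => by
    simp only [commutatorElement_def]
    group

/-- operations on two adjacent handles -/
structure Two where
  k : ∀ {G : Type} [Group G], G × G → G × G → (G × G) × (G × G)
  ki : ∀ {G : Type} [Group G], G × G → G × G → (G × G) × (G × G)
  nat : ∀ {G G' : Type} [Group G] [Group G'] (ψ : G →* G') (v w : G × G),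
    k (ψ v.1, ψ v.2) (ψ w.1, ψ w.2) =
      ((ψ (k v w).1.1, ψ (k v w).1.2), (ψ (k v w).2.1, ψ (k v w).2.2))
  nati : ∀ {G G' : Type} [Group G] [Group G'] (ψ : G →* G') (v w : G × G),
    ki (ψ v.1, ψ v.2) (ψ w.1, ψ w.2) =
      ((ψ (ki v w).1.1, ψ (ki v w).1.2), (ψ (ki v w).2.1, ψ (ki v w).2.2))
  l : ∀ {G : Type} [Group G] (v w : G × G), ki (k v w).1 (k v w).2 = (v, w)
  r : ∀ {G : Type} [Group G] (v w : G × G), k (ki v w).1 (ki v w).2 = (v, w)
  c : ∀ {G : Type} [Group G] (v w : G × G),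
    ⁅(k v w).1.1, (k v w).1.2⁆ * ⁅(k v w).2.1, (k v w).2.2⁆ = ⁅v.1, v.2⁆ * ⁅w.1, w.2⁆

theorem Two.ci (K : Two) {G : Type} [Group G] (v w : G × G) :
    ⁅(K.ki v w).1.1, (K.ki v w).1.2⁆ * ⁅(K.ki v w).2.1, (K.ki v w).2.2⁆ = ⁅v.1, v.2⁆ * ⁅w.1, w.2⁆ := by
  rw [← K.c (K.ki v w).1 (K.ki v w).2, K.r]

/-- update of the first two handles -/
def up2 {n : ℕ} {G : Type} (a : Tup (n + 2) G) (v w : G × G) : Tup (n + 2) G :=
  Function.update (Function.update a 0 v) 1 w

theorem com_up2 {n : ℕ} {G : Type} [Group G] (a : Tup (n + 2) G) (v w : G × G)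
    (h : ⁅v.1, v.2⁆ * ⁅w.1, w.2⁆ = ⁅(a 0).1, (a 0).2⁆ * ⁅(a 1).1, (a 1).2⁆) :
    com (up2 a v w) = com a := by
  have e : ∀ b : Tup (n + 2) G, com b = ⁅(b 0).1, (b 0).2⁆ * ⁅(b 1).1, (b 1).2⁆ *
      (List.ofFn fun i : Fin n => ⁅(b i.succ.succ).1, (b i.succ.succ).2⁆).prod := by
    intro b
    unfold com
    rw [List.ofFn_succ, List.ofFn_succ, List.prod_cons, List.prod_cons, mul_assoc]
    rfl
  rw [e, e]
  have h0 : up2 a v w 0 = v := by
    unfold up2
    rw [Function.update_of_ne (by simp), Function.update_self]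
  have h1 : up2 a v w 1 = w := by
    unfold up2
    rw [Function.update_self]
  have h2 : ∀ i : Fin n, up2 a v w i.succ.succ = a i.succ.succ := by
    intro i
    unfold up2
    rw [Function.update_of_ne, Function.update_of_ne]
    · exact Fin.succ_ne_zero _
    · intro h
      have := congrArg Fin.val h
      simp at this
  rw [h0, h1, h]
  simp only [h2]

theorem up2_up2 {n : ℕ} {G : Type} (a : Tup (n + 2) G) (v w v' w' : G × G) :
    up2 (up2 a v w) v' w' = up2 a v' w' := by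
  funext j
  unfold up2
  by_cases h1 : j = 1
  · subst h1
    simp
  · by_cases h0 : j = 0
    · subst h0
      simp
    · simp [Function.update_of_ne, h0, h1]

theorem up2_self {n : ℕ} {G : Type} (a : Tup (n + 2) G) : up2 a (a 0) (a 1) = a := by
  unfold up2
  rw [Function.update_eq_self, Function.update_eq_self]

theorem up2_zero {n : ℕ} {G : Type} (a : Tup (n + 2) G) (v w : G × G) : up2 a v w 0 = v := by
  unfold up2
  rw [Function.update_of_ne (by simp), Function.update_self]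

theorem up2_one {n : ℕ} {G : Type} (a : Tup (n + 2) G) (v w : G × G) : up2 a v w 1 = w := by
  unfold up2
  rw [Function.update_self]

theorem mp_up2 {n : ℕ} {G G' : Type} [Group G] [Group G'] (ψ : G →* G') (a : Tup (n + 2) G)
    (v w : G × G) : mp ψ (up2 a v w) = up2 (mp ψ a) (ψ v.1, ψ v.2) (ψ w.1, ψ w.2) := by
  unfold up2
  rw [mp_update, mp_update]

/-- the operation on the first two handles -/
def Two.at' (n : ℕ) (K : Two) : Move (n + 2) where
  f := fun a => up2 a (K.k (a 0) (a 1)).1 (K.k (a 0) (a 1)).2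
  fi := fun a => up2 a (K.ki (a 0) (a 1)).1 (K.ki (a 0) (a 1)).2
  nat := fun ψ a => by
    rw [mp_up2]
    have := K.nat ψ (a 0) (a 1)
    unfold mp
    rw [this]
  nati := fun ψ a => by
    rw [mp_up2]
    have := K.nati ψ (a 0) (a 1)
    unfold mp
    rw [this]
  l := fun a => by rw [up2_zero, up2_one, up2_up2, K.l, up2_self]
  r := fun a => by rw [up2_zero, up2_one, up2_up2, K.r, up2_self]
  p := fun a h => by rw [com_up2 _ _ _ (K.c _ _), h]
  pi := fun a h => by rw [com_up2 _ _ _ (K.ci _ _), h]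

/-- swap of two handles -/
def SS : Two where
  k := fun v w => ((⁅v.1, v.2⁆ * w.1 * ⁅v.1, v.2⁆⁻¹, ⁅v.1, v.2⁆ * w.2 * ⁅v.1, v.2⁆⁻¹), v)
  ki := fun v w => (w, (⁅w.1, w.2⁆⁻¹ * v.1 * ⁅w.1, w.2⁆, ⁅w.1, w.2⁆⁻¹ * v.2 * ⁅w.1, w.2⁆))
  nat := fun ψ v w => by simp [map_commutatorElement]
  nati := fun ψ v w => by simp [map_commutatorElement]
  l := fun v w => by
    refine Prod.ext rfl (Prod.ext ?_ ?_) <;> simp <;> group
  r := fun v w => by
    refine Prod.ext (Prod.ext ?_ ?_) rfl <;> simp <;> group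
  c := fun v w => by
    simp only [commutatorElement_def]
    group

/-- the twist along a curve through two handles, `z = y_1⁻¹ x_2 y_2 x_2⁻¹` -/
def ZZ : Two where
  k := fun v w => ((v.1 * (v.2⁻¹ * (w.1 * w.2 * w.1⁻¹)), (v.2⁻¹ * (w.1 * w.2 * w.1⁻¹))⁻¹ * v.2 *
    (v.2⁻¹ * (w.1 * w.2 * w.1⁻¹))), ((v.2⁻¹ * (w.1 * w.2 * w.1⁻¹))⁻¹ * w.1, w.2))
  ki := fun v w => ((v.1 * (v.2⁻¹ * (w.1 * w.2 * w.1⁻¹))⁻¹, (v.2⁻¹ * (w.1 * w.2 * w.1⁻¹)) * v.2 *
    (v.2⁻¹ * (w.1 * w.2 * w.1⁻¹))⁻¹), ((v.2⁻¹ * (w.1 * w.2 * w.1⁻¹)) * w.1, w.2))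
  nat := fun ψ v w => by simp
  nati := fun ψ v w => by simp
  l := fun v w => by
    refine Prod.ext (Prod.ext ?_ ?_) (Prod.ext ?_ ?_) <;> simp <;> group
  r := fun v w => by
    refine Prod.ext (Prod.ext ?_ ?_) (Prod.ext ?_ ?_) <;> simp <;> group
  c := fun v w => by
    simp only [commutatorElement_def]
    group

/-- the push of the second handle around `x` of the first one -/
def PP : Two where
  k := fun v w => ((v.1, ⁅w.1, w.2⁆⁻¹ * v.2),
    ((⁅w.1, w.2⁆⁻¹ * v.2 * v.1 * v.2⁻¹) * w.1 * (⁅w.1, w.2⁆⁻¹ * v.2 * v.1 * v.2⁻¹)⁻¹,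
     (⁅w.1, w.2⁆⁻¹ * v.2 * v.1 * v.2⁻¹) * w.2 * (⁅w.1, w.2⁆⁻¹ * v.2 * v.1 * v.2⁻¹)⁻¹))
  ki := fun v w => ((v.1, (⁅w.1, w.2⁆⁻¹ * v.2 * v.1 * v.2⁻¹)⁻¹ * ⁅w.1, w.2⁆ *
      (⁅w.1, w.2⁆⁻¹ * v.2 * v.1 * v.2⁻¹) * v.2),
    ((⁅w.1, w.2⁆⁻¹ * v.2 * v.1 * v.2⁻¹)⁻¹ * w.1 * (⁅w.1, w.2⁆⁻¹ * v.2 * v.1 * v.2⁻¹),
     (⁅w.1, w.2⁆⁻¹ * v.2 * v.1 * v.2⁻¹)⁻¹ * w.2 * (⁅w.1, w.2⁆⁻¹ * v.2 * v.1 * v.2⁻¹)))
  nat := fun ψ v w => by simp [map_commutatorElement]
  nati := fun ψ v w => by simp [map_commutatorElement]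
  l := fun v w => by
    simp only [commutatorElement_def]
    refine Prod.ext (Prod.ext rfl ?_) (Prod.ext ?_ ?_) <;> dsimp only <;> group
  r := fun v w => by
    simp only [commutatorElement_def]
    refine Prod.ext (Prod.ext rfl ?_) (Prod.ext ?_ ?_) <;> dsimp only <;> group
  c := fun v w => by
    simp only [commutatorElement_def]
    group

end Pool.Agent.PrymAff
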